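import Pool.Agent.helper240_AS.Red

/-!
# The reduction from 3SAT: completeness
-/

set_option autoImplicit false

namespace Helper240AS

open Pool.Agent.NPC Pool.Agent.H622R2

/-- A satisfying assignment with a true literal picked in each clause. -/
structure Good (φ : List Cl) (τ : ℕ → Bool) (pk : ℕ → ℕ) : Prop where
  bdd : Bdd φ
  div : ∀ c, pk c / 3 = c
  tr : ∀ e < 3 * φ.length, e = pk (e / 3) → τ (litAt φ e).2 = (litAt φ e).1

theorem exists_good {φ : List Cl} (hB : Bdd φ) (h : Sat3V ℕ φ) : ∃ τ pk, Good φ τ pk := by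
  obtain ⟨τ, hτ⟩ := h
  have h1 : ∀ c, ∃ p, p / 3 = c ∧ (c < φ.length → τ (litAt φ p).2 = (litAt φ p).1) := by
    intro c
    by_cases hc : c < φ.length
    · obtain ⟨e1, e2, e3⟩ := litAt_eq (φ := φ) (j := c) (c := φ[c]) (by
        rw [List.getElem?_eq_getElem hc])
      rcases hτ _ (List.getElem_mem hc) with h | h | h
      · exact ⟨3 * c, by omega, fun _ => by rw [e1]; exact h⟩
      · exact ⟨3 * c + 1, by omega, fun _ => by rw [e2]; exact h⟩
      · exact ⟨3 * c + 2, by omega, fun _ => by rw [e3]; exact h⟩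
    · exact ⟨3 * c, by omega, fun h => absurd h hc⟩
  choose pk h2 h3 using h1
  refine ⟨τ, pk, hB, h2, fun e he hpe => ?_⟩
  have := h3 (e / 3) (by omega)
  rw [← hpe] at this
  exact this

/-- The cyclic arrangement. -/
def FF (φ : List Cl) (τ : ℕ → Bool) (pk : ℕ → ℕ) (x : L) : L :=
  if x.1 = 0 then (4, 0) else
  if x.1 = 1 then (2, 0) else
  if x.1 = 2 then (0, 0) else
  if x.1 = 3 then (1, 0) else
  if x.1 = 4 then (5, 0) else
  if x.1 = 5 then tgt φ (τ x.2, x.2) 0 else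
  if x.1 = 6 then (if x.2 = pk (x.2 / 3) then (7, x.2) else (8, x.2)) else
  if x.1 = 7 then (if nx x.2 = pk (x.2 / 3) then K φ (nx x.2 + 1) else (7, nx x.2)) else
  if x.1 = 8 then (if τ (litAt φ x.2).2 = (litAt φ x.2).1 then (9, x.2) else (10, x.2)) else
  if x.1 = 9 then (if x.2 = pk (x.2 / 3) then (11, x.2) else K φ (x.2 + 1)) else
  if x.1 = 10 then (if x.2 = pk (x.2 / 3) then (8, x.2) else (11, x.2)) else
  (if τ (litAt φ x.2).2 = (litAt φ x.2).1 then tgt φ (litAt φ x.2) (x.2 + 1) else (9, x.2))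

section

variable {φ : List Cl} {τ : ℕ → Bool} {pk : ℕ → ℕ}

theorem FF0 (i : ℕ) : FF φ τ pk (0, i) = (4, 0) := by simp [FF]
theorem FF1 (i : ℕ) : FF φ τ pk (1, i) = (2, 0) := by simp [FF]
theorem FF2 (i : ℕ) : FF φ τ pk (2, i) = (0, 0) := by simp [FF]
theorem FF3 (i : ℕ) : FF φ τ pk (3, i) = (1, 0) := by simp [FF]
theorem FF4 (i : ℕ) : FF φ τ pk (4, i) = (5, 0) := by simp [FF]
theorem FF5 (i : ℕ) : FF φ τ pk (5, i) = tgt φ (τ i, i) 0 := by simp [FF]
theorem FF6 (e : ℕ) : FF φ τ pk (6, e) = if e = pk (e / 3) then (7, e) else (8, e) := by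
  simp [FF]
theorem FF7 (e : ℕ) : FF φ τ pk (7, e) =
    if nx e = pk (e / 3) then K φ (nx e + 1) else (7, nx e) := by simp [FF]
theorem FF8 (e : ℕ) : FF φ τ pk (8, e) =
    if τ (litAt φ e).2 = (litAt φ e).1 then (9, e) else (10, e) := by simp [FF]
theorem FF9 (e : ℕ) : FF φ τ pk (9, e) = if e = pk (e / 3) then (11, e) else K φ (e + 1) := by
  simp [FF]
theorem FF10 (e : ℕ) : FF φ τ pk (10, e) = if e = pk (e / 3) then (8, e) else (11, e) := by
  simp [FF]
theorem FF11 (e : ℕ) : FF φ τ pk (11, e) =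
    if τ (litAt φ e).2 = (litAt φ e).1 then tgt φ (litAt φ e) (e + 1) else (9, e) := by simp [FF]

theorem K_mem (e : ℕ) : K φ e ∈ vs φ := by
  rcases K_cases φ e with ⟨h, h'⟩ | ⟨-, h'⟩ <;> rw [h', mem_vs]
  · right; right; exact ⟨by norm_num, by norm_num, h⟩
  · left; exact ⟨by norm_num, rfl⟩

theorem tgt_mem (l : Lit ℕ) (k : ℕ) : tgt φ l k ∈ vs φ := by
  rcases tgt_cases φ l k with ⟨e, -, h2, -, -, -, h⟩ | ⟨-, ⟨h2, h⟩ | ⟨-, h2, h⟩ | ⟨-, -, h⟩⟩ <;>
    rw [h, mem_vs]
  · right; right; exact ⟨by norm_num, by norm_num, h2⟩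
  · right; left; exact ⟨rfl, h2⟩
  · right; right; exact ⟨by norm_num, by norm_num, h2⟩
  · left; exact ⟨by norm_num, rfl⟩

theorem nx_lt {e m : ℕ} (h : e < 3 * m) : nx e < 3 * m := by unfold nx; omega

theorem o_mem {x : L} (hx : x ∈ vs φ) (h2 : 2 ≤ x.1) : o1 φ x ∈ vs φ ∧ o2 φ x ∈ vs φ := by
  obtain ⟨p, q⟩ := x
  have h12 := lt_twelve hx
  have hx' := mem_vs.1 hx
  simp only at h2 h12 hx'
  interval_cases p <;> simp only [o1, o2] <;> norm_num
  · exact ⟨mem_vs.2 (by simp), mem_vs.2 (by simp)⟩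
  · exact ⟨mem_vs.2 (by simp), mem_vs.2 (by simp)⟩
  · exact ⟨mem_vs.2 (by simp), mem_vs.2 (by simp)⟩
  · refine ⟨tgt_mem _ _, ?_⟩
    split_ifs
    · exact mem_vs.2 (by simp)
    · exact tgt_mem _ _
  · exact ⟨mem_vs.2 (by simp only; omega), mem_vs.2 (by simp only; omega)⟩
  · refine ⟨mem_vs.2 ?_, K_mem _⟩
    have := nx_lt (e := q) (m := φ.length) (by omega)
    simp only; omega
  · exact ⟨mem_vs.2 (by simp only; omega), mem_vs.2 (by simp only; omega)⟩
  · exact ⟨K_mem _, mem_vs.2 (by simp only; omega)⟩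
  · exact ⟨mem_vs.2 (by simp only; omega), mem_vs.2 (by simp only; omega)⟩
  · exact ⟨tgt_mem _ _, mem_vs.2 (by simp only; omega)⟩

theorem nx_ne (e : ℕ) : nx e ≠ e := by unfold nx; omega

theorem tgt_ne_self (b : Bool) (i : ℕ) : tgt φ (b, i) 0 ≠ (5, i) := by
  rcases tgt_cases φ (b, i) 0 with ⟨e, -, h2, -, -, -, h⟩ | ⟨-, ⟨h2, h⟩ | ⟨-, h2, h⟩ | ⟨-, -, h⟩⟩ <;>
    rw [h] <;> simp

theorem o_ne {x : L} (hx : x ∈ vs φ) (h2 : 2 ≤ x.1) :
    o1 φ x ≠ o2 φ x ∧ o1 φ x ≠ x ∧ o2 φ x ≠ x := by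
  obtain ⟨p, q⟩ := x
  have h12 := lt_twelve hx
  simp only at h2 h12
  have ht := tgt_type φ (true, q) 0
  have hf := tgt_type φ (false, q) 0
  have hl := tgt_type φ (litAt φ q) (q + 1)
  have hk := K_type φ (q + 1)
  have hk' := K_type φ (nx q + 1)
  interval_cases p <;> simp only [o1, o2] <;> norm_num
  · refine ⟨?_, tgt_ne_self _ _, ?_⟩
    · split_ifs with h
      · intro hc; rw [hc] at ht; simp at ht
      · exact Ne.symm h
    · split_ifs with h
      · simp
      · exact tgt_ne_self _ _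
  · refine ⟨?_, nx_ne q, ?_⟩
    · intro hc; rw [← hc] at hk'; simp at hk'
    · intro hc; rw [hc] at hk'; simp at hk'
  · refine ⟨?_, ?_⟩
    · intro hc; rw [hc] at hk; simp at hk
    · intro hc; rw [hc] at hk; simp at hk
  · refine ⟨?_, ?_⟩
    · intro hc; rw [hc] at hl; simp at hl
    · intro hc; rw [hc] at hl; simp at hl

theorem FF_out {x : L} (hx : x ∈ vs φ) (h2 : 2 ≤ x.1) :
    FF φ τ pk x = o1 φ x ∨ FF φ τ pk x = o2 φ x := by
  obtain ⟨p, q⟩ := x
  have h12 := lt_twelve hx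
  simp only at h2 h12
  interval_cases p
  · rw [FF2]; simp [o1]
  · rw [FF3]; simp [o1]
  · rw [FF4]; simp [o1]
  · rw [FF5]
    simp only [o1, o2]
    norm_num
    cases τ q
    · by_cases h : tgt φ (false, q) 0 = tgt φ (true, q) 0
      · left; exact h
      · right; rw [if_neg h]
    · left; rfl
  · rw [FF6]
    by_cases h : q = pk (q / 3)
    · rw [if_pos h]; right; simp [o2]
    · rw [if_neg h]; left; simp [o1]
  · rw [FF7]
    by_cases h : nx q = pk (q / 3)
    · rw [if_pos h]; right; simp [o2]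
    · rw [if_neg h]; left; simp [o1]
  · rw [FF8]
    by_cases h : τ (litAt φ q).2 = (litAt φ q).1
    · rw [if_pos h]; left; simp [o1]
    · rw [if_neg h]; right; simp [o2]
  · rw [FF9]
    by_cases h : q = pk (q / 3)
    · rw [if_pos h]; right; simp [o2]
    · rw [if_neg h]; left; simp [o1]
  · rw [FF10]
    by_cases h : q = pk (q / 3)
    · rw [if_pos h]; right; simp [o2]
    · rw [if_neg h]; left; simp [o1]
  · rw [FF11]
    by_cases h : τ (litAt φ q).2 = (litAt φ q).1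
    · rw [if_pos h]; left; simp [o1]
    · rw [if_neg h]; right; simp [o2]

theorem FF_mem {x : L} (hx : x ∈ vs φ) : FF φ τ pk x ∈ vs φ := by
  by_cases h2 : 2 ≤ x.1
  · rcases FF_out (τ := τ) (pk := pk) hx h2 with h | h <;> rw [h]
    · exact (o_mem hx h2).1
    · exact (o_mem hx h2).2
  · obtain ⟨p, q⟩ := x
    simp only at h2
    interval_cases p
    · rw [FF0]; exact mem_vs.2 (by simp)
    · rw [FF1]; exact mem_vs.2 (by simp)

/-- The last place below `k` where a property holds. -/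
theorem exists_last {P : ℕ → Prop} : ∀ k, (∃ j < k, P j) →
    ∃ j < k, P j ∧ ∀ i, j < i → i < k → ¬ P i := by
  intro k
  induction k with
  | zero => rintro ⟨j, hj, -⟩; omega
  | succ k ih =>
    rintro ⟨j, hj, hP⟩
    by_cases hk : P k
    · exact ⟨k, by omega, hk, fun i h1 h2 => by omega⟩
    · obtain ⟨j', hj', h1, h2⟩ := ih ⟨j, by
        rcases Nat.lt_succ_iff_lt_or_eq.1 hj with h | h
        · exact h
        · exact absurd (h ▸ hP) hk, hP⟩
      refine ⟨j', by omega, h1, fun i h3 h4 => ?_⟩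
      by_cases hik : i = k
      · rw [hik]; exact hk
      · exact h2 i h3 (by omega)

theorem tgt_of_last {l : Lit ℕ} {k e : ℕ} (h1 : k ≤ e) (h2 : e < 3 * φ.length)
    (h3 : litAt φ e = l) (h4 : ∀ j, k ≤ j → j < e → litAt φ j ≠ l) : tgt φ l k = (10, e) := by
  have : nxt φ l k = some e := nxt_some.2 ⟨h1, h3, h2, fun j hj hc => h4 j hc.1 hj hc.2⟩
  simp [tgt, this]

theorem tgt_of_none {l : Lit ℕ} {k : ℕ} (h : ∀ j, k ≤ j → j < 3 * φ.length → litAt φ j ≠ l) :
    tgt φ l k = X φ (l.2 + 1) := by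
  have : nxt φ l k = none := nxt_none.2 fun j hj hc => h j hc.1 hj hc.2
  simp [tgt, this]

/-- The predecessor of the entry `K e`. -/
theorem pred_K {e : ℕ} (he : e < 3 * φ.length) :
    ∃ x ∈ vs φ, FF φ τ pk x = K φ (e + 1) := by
  by_cases h : e = pk (e / 3)
  · -- from the vertex `(7, e')` with `nx e' = e`
    have h1 : nx (3 * (e / 3) + (e + 2) % 3) = e := by unfold nx; omega
    have h2 : (3 * (e / 3) + (e + 2) % 3) / 3 = e / 3 := by omega
    refine ⟨(7, 3 * (e / 3) + (e + 2) % 3), mem6 (by norm_num) (by norm_num) (by omega), ?_⟩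
    rw [FF7, h1, h2, if_pos h]
  · exact ⟨(9, e), mem6 (by norm_num) (by norm_num) he, by rw [FF9, if_neg h]⟩

theorem FF_surj (hg : Good φ τ pk) {y : L} (hy : y ∈ vs φ) : ∃ x ∈ vs φ, FF φ τ pk x = y := by
  obtain ⟨p, q⟩ := y
  have h12 := lt_twelve hy
  have hy' := mem_vs.1 hy
  simp only at h12 hy'
  have pX : ∀ i < 3 * φ.length + 1, ∃ x ∈ vs φ, FF φ τ pk x = X φ (i + 1) := by
    intro i hi
    by_cases h : ∃ j < 3 * φ.length, litAt φ j = (τ i, i)
    · obtain ⟨j, hj, h1, h2⟩ := exists_last _ h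
      refine ⟨(11, j), mem6 (by norm_num) (by norm_num) hj, ?_⟩
      rw [FF11, h1, if_pos rfl, tgt_of_none]
      intro i' h3 h4
      exact h2 i' (by omega) h4
    · push Not at h
      refine ⟨(5, i), mem_vs.2 (Or.inr (Or.inl ⟨rfl, hi⟩)), ?_⟩
      rw [FF5, tgt_of_none fun j _ hj => h j hj]
  interval_cases p
  · exact ⟨(2, 0), mem_vs.2 (by simp), by rw [FF2]; congr 1; omega⟩
  · exact ⟨(3, 0), mem_vs.2 (by simp), by rw [FF3]; congr 1; omega⟩
  · exact ⟨(1, 0), mem_vs.2 (by simp), by rw [FF1]; congr 1; omega⟩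
  · have hq : q = 0 := by omega
    subst hq
    by_cases hm : φ.length = 0
    · obtain ⟨x, hx, h⟩ := pX 0 (by omega)
      refine ⟨x, hx, h.trans ?_⟩
      unfold X K
      rw [if_neg (by omega), if_neg (by omega)]
    · obtain ⟨x, hx, h⟩ := pred_K (φ := φ) (τ := τ) (pk := pk) (e := 3 * φ.length - 1) (by omega)
      refine ⟨x, hx, h.trans ?_⟩
      unfold K
      rw [if_neg (by omega)]
  · exact ⟨(0, 0), mem_vs.2 (by simp), by rw [FF0]; congr 1; omega⟩
  · rcases Nat.eq_zero_or_pos q with rfl | hq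
    · exact ⟨(4, 0), mem_vs.2 (by simp), by rw [FF4]⟩
    · obtain ⟨x, hx, h⟩ := pX (q - 1) (by omega)
      refine ⟨x, hx, h.trans ?_⟩
      unfold X
      rw [if_pos (by omega)]
      congr 1; omega
  · rcases Nat.eq_zero_or_pos q with rfl | hq
    · obtain ⟨x, hx, h⟩ := pX (3 * φ.length) (by omega)
      refine ⟨x, hx, h.trans ?_⟩
      unfold X K
      rw [if_neg (by omega), if_pos (by omega)]
    · obtain ⟨x, hx, h⟩ := pred_K (φ := φ) (τ := τ) (pk := pk) (e := q - 1) (by omega)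
      refine ⟨x, hx, h.trans ?_⟩
      unfold K
      rw [if_pos (by omega)]
      congr 1; omega
  · have hq : q < 3 * φ.length := by omega
    by_cases h : q = pk (q / 3)
    · exact ⟨(6, q), mem6 (by norm_num) (by norm_num) hq, by rw [FF6, if_pos h]⟩
    · have h1 : nx (3 * (q / 3) + (q + 2) % 3) = q := by unfold nx; omega
      have h2 : (3 * (q / 3) + (q + 2) % 3) / 3 = q / 3 := by omega
      refine ⟨(7, 3 * (q / 3) + (q + 2) % 3), mem6 (by norm_num) (by norm_num) (by omega), ?_⟩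
      rw [FF7, h1, h2, if_neg h]
  · have hq : q < 3 * φ.length := by omega
    by_cases h : q = pk (q / 3)
    · exact ⟨(10, q), mem6 (by norm_num) (by norm_num) hq, by rw [FF10, if_pos h]⟩
    · exact ⟨(6, q), mem6 (by norm_num) (by norm_num) hq, by rw [FF6, if_neg h]⟩
  · have hq : q < 3 * φ.length := by omega
    by_cases h : τ (litAt φ q).2 = (litAt φ q).1
    · exact ⟨(8, q), mem6 (by norm_num) (by norm_num) hq, by rw [FF8, if_pos h]⟩
    · exact ⟨(11, q), mem6 (by norm_num) (by norm_num) hq, by rw [FF11, if_neg h]⟩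
  · have hq : q < 3 * φ.length := by omega
    by_cases h : τ (litAt φ q).2 = (litAt φ q).1
    · by_cases h' : ∃ j < q, litAt φ j = litAt φ q
      · obtain ⟨j, hj, h1, h2⟩ := exists_last _ h'
        refine ⟨(11, j), mem6 (by norm_num) (by norm_num) (by omega), ?_⟩
        rw [FF11, h1, if_pos h]
        exact tgt_of_last (by omega) hq rfl fun i h3 h4 => h2 i (by omega) h4
      · push Not at h'
        refine ⟨(5, (litAt φ q).2), mem_vs.2 (Or.inr (Or.inl ⟨rfl, ?_⟩)), ?_⟩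
        · have := hg.bdd q hq; simp only; omega
        · rw [FF5, h]
          exact tgt_of_last (by omega) hq rfl fun i _ h4 => h' i h4
    · exact ⟨(8, q), mem6 (by norm_num) (by norm_num) hq, by rw [FF8, if_neg h]⟩
  · have hq : q < 3 * φ.length := by omega
    by_cases h : q = pk (q / 3)
    · exact ⟨(9, q), mem6 (by norm_num) (by norm_num) hq, by rw [FF9, if_pos h]⟩
    · exact ⟨(10, q), mem6 (by norm_num) (by norm_num) hq, by rw [FF10, if_neg h]⟩

/-! ### All labels lead to the hub -/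

/-- the major potential -/
def maj (φ : List Cl) (τ : ℕ → Bool) (pk : ℕ → ℕ) (x : L) : ℕ :=
  if x.1 = 0 then 3 * φ.length + 7 else
  if x.1 = 1 then 3 * φ.length + 5 else
  if x.1 = 2 then 3 * φ.length + 6 else
  if x.1 = 3 then 3 * φ.length + 4 else
  if x.1 = 4 then 0 else
  if x.1 = 5 then x.2 + 1 else
  if x.1 = 6 then 3 * φ.length + 3 else
  if x.1 = 7 then 3 * φ.length + 3 else
  if x.1 < 10 then (if x.2 = pk (x.2 / 3) then (litAt φ x.2).2 + 1 else 3 * φ.length + 3) else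
  (if τ (litAt φ x.2).2 = (litAt φ x.2).1 then (litAt φ x.2).2 + 1 else 3 * φ.length + 3)

/-- the minor potential -/
def mnr (φ : List Cl) (τ : ℕ → Bool) (pk : ℕ → ℕ) (x : L) : ℕ :=
  if x.1 < 6 then 0 else
  if x.1 = 6 then 7 * x.2 + 1 else
  if x.1 = 7 then (if x.2 = pk (x.2 / 3) then 7 * pk (x.2 / 3) + 2 else
    if x.2 = nx (pk (x.2 / 3)) then 7 * pk (x.2 / 3) + 3 else 7 * pk (x.2 / 3) + 4) else
  if x.1 = 8 then 7 * x.2 + 2 else
  if x.1 = 9 then (if x.2 = pk (x.2 / 3) then 7 * x.2 + 3 else 7 * x.2 + 5) else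
  if x.1 = 10 then (if τ (litAt φ x.2).2 = (litAt φ x.2).1 then 7 * x.2 + 1 else 7 * x.2 + 3) else
  7 * x.2 + 4

theorem maj0 (e : ℕ) : maj φ τ pk (0, e) = 3 * φ.length + 7 := by simp [maj]
theorem maj1 (e : ℕ) : maj φ τ pk (1, e) = 3 * φ.length + 5 := by simp [maj]
theorem maj2 (e : ℕ) : maj φ τ pk (2, e) = 3 * φ.length + 6 := by simp [maj]
theorem maj3 (e : ℕ) : maj φ τ pk (3, e) = 3 * φ.length + 4 := by simp [maj]
theorem maj4 (e : ℕ) : maj φ τ pk (4, e) = 0 := by simp [maj]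
theorem maj5 (e : ℕ) : maj φ τ pk (5, e) = e + 1 := by simp [maj]
theorem maj6 (e : ℕ) : maj φ τ pk (6, e) = 3 * φ.length + 3 := by simp [maj]
theorem maj7 (e : ℕ) : maj φ τ pk (7, e) = 3 * φ.length + 3 := by simp [maj]
theorem maj8 (e : ℕ) : maj φ τ pk (8, e) =
    if e = pk (e / 3) then (litAt φ e).2 + 1 else 3 * φ.length + 3 := by simp [maj]
theorem maj9 (e : ℕ) : maj φ τ pk (9, e) =
    if e = pk (e / 3) then (litAt φ e).2 + 1 else 3 * φ.length + 3 := by simp [maj]
theorem maj10 (e : ℕ) : maj φ τ pk (10, e) =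
    if τ (litAt φ e).2 = (litAt φ e).1 then (litAt φ e).2 + 1 else 3 * φ.length + 3 := by
  simp [maj]
theorem maj11 (e : ℕ) : maj φ τ pk (11, e) =
    if τ (litAt φ e).2 = (litAt φ e).1 then (litAt φ e).2 + 1 else 3 * φ.length + 3 := by
  simp [maj]
theorem mnr0 {p : ℕ} (h : p < 6) (e : ℕ) : mnr φ τ pk (p, e) = 0 := by simp [mnr, h]
theorem mnr6 (e : ℕ) : mnr φ τ pk (6, e) = 7 * e + 1 := by simp [mnr]
theorem mnr7 (e : ℕ) : mnr φ τ pk (7, e) = if e = pk (e / 3) then 7 * pk (e / 3) + 2 else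
    if e = nx (pk (e / 3)) then 7 * pk (e / 3) + 3 else 7 * pk (e / 3) + 4 := by
  simp only [mnr]; norm_num
theorem mnr8 (e : ℕ) : mnr φ τ pk (8, e) = 7 * e + 2 := by simp [mnr]
theorem mnr9 (e : ℕ) : mnr φ τ pk (9, e) = if e = pk (e / 3) then 7 * e + 3 else 7 * e + 5 := by
  simp only [mnr]; norm_num
theorem mnr10 (e : ℕ) : mnr φ τ pk (10, e) =
    if τ (litAt φ e).2 = (litAt φ e).1 then 7 * e + 1 else 7 * e + 3 := by
  simp only [mnr]; norm_num
theorem mnr11 (e : ℕ) : mnr φ τ pk (11, e) = 7 * e + 4 := by simp [mnr]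

theorem maj_K (e : ℕ) : maj φ τ pk (K φ e) = (if e < 3 * φ.length then 3 * φ.length + 3 else
    3 * φ.length + 4) ∧ mnr φ τ pk (K φ e) = (if e < 3 * φ.length then 7 * e + 1 else 0) := by
  rcases K_cases φ e with ⟨h, h'⟩ | ⟨h, h'⟩
  · rw [h', if_pos h, if_pos h]; simp [maj, mnr]
  · rw [h', if_neg (by omega), if_neg (by omega)]; simp [maj, mnr]

/-- The potential of a target. -/
theorem maj_tgt {l : Lit ℕ} {k : ℕ} (hl : τ l.2 = l.1) (hk : l.2 < 3 * φ.length + 1) :
    l.2 + 1 < maj φ τ pk (tgt φ l k) ∨ (maj φ τ pk (tgt φ l k) = l.2 + 1 ∧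
      7 * k + 1 ≤ mnr φ τ pk (tgt φ l k)) := by
  rcases tgt_cases φ l k with ⟨e, h1, h2, h3, -, -, h⟩ | ⟨-, ⟨h2, h⟩ | ⟨-, h2, h⟩ | ⟨-, -, h⟩⟩ <;>
    rw [h]
  · right
    rw [maj10, mnr10, h3, if_pos hl, if_pos hl]
    omega
  · left; rw [maj5]; omega
  · left; rw [maj6]; omega
  · left; rw [maj3]; omega

theorem step_up (hg : Good φ τ pk) {x : L} (hx : x ∈ vs φ) (h0 : x.1 ≠ 0) :
    maj φ τ pk x < maj φ τ pk (FF φ τ pk x) ∨ (maj φ τ pk x = maj φ τ pk (FF φ τ pk x) ∧
      mnr φ τ pk x < mnr φ τ pk (FF φ τ pk x)) := by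
  obtain ⟨p, q⟩ := x
  have h12 := lt_twelve hx
  have hx' := mem_vs.1 hx
  simp only at h12 h0 hx'
  interval_cases p
  · exact absurd rfl h0
  · rw [FF1, maj1, maj2]; omega
  · rw [FF2, maj2, maj0]; omega
  · rw [FF3, maj3, maj1]; omega
  · rw [FF4, maj4, maj5]; omega
  · rw [FF5]
    have h1 := maj_tgt (φ := φ) (τ := τ) (pk := pk) (l := (τ q, q)) (k := 0) rfl
      (by simp only; omega)
    rw [maj5, mnr0 (by norm_num)]
    simp only at h1
    omega
  · rw [FF6, maj6, mnr6]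
    by_cases h : q = pk (q / 3)
    · rw [if_pos h, maj7, mnr7, if_pos h]; omega
    · rw [if_neg h, maj8, mnr8, if_neg h]; omega
  · rw [FF7]
    have hq : q < 3 * φ.length := by omega
    have hd := hg.div (q / 3)
    rw [maj7, mnr7]
    by_cases h : nx q = pk (q / 3)
    · rw [if_pos h]
      obtain ⟨e3, e4⟩ := maj_K (φ := φ) (τ := τ) (pk := pk) (nx q + 1)
      rw [e3, e4]
      split_ifs <;> omega
    · rw [if_neg h, maj7, mnr7]
      right
      refine ⟨rfl, ?_⟩
      have hd2 : nx q / 3 = q / 3 := by unfold nx; omega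
      rw [hd2, if_neg h]
      unfold nx at h ⊢
      split_ifs <;> omega
  · rw [FF8, maj8, mnr8]
    have hq : q < 3 * φ.length := by omega
    have hb := hg.bdd q hq
    by_cases h : τ (litAt φ q).2 = (litAt φ q).1
    · rw [if_pos h, maj9, mnr9]
      split_ifs <;> omega
    · have h' : q ≠ pk (q / 3) := fun hc => h (hg.tr q hq hc)
      rw [if_neg h, if_neg h', maj10, mnr10, if_neg h, if_neg h]
      omega
  · rw [FF9, maj9, mnr9]
    have hq : q < 3 * φ.length := by omega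
    by_cases h' : q = pk (q / 3)
    · have h := hg.tr q hq h'
      rw [if_pos h', if_pos h', if_pos h', maj11, mnr11, if_pos h]
      omega
    · rw [if_neg h', if_neg h', if_neg h']
      obtain ⟨e3, e4⟩ := maj_K (φ := φ) (τ := τ) (pk := pk) (q + 1)
      rw [e3, e4]
      split_ifs <;> omega
  · rw [FF10, maj10, mnr10]
    have hq : q < 3 * φ.length := by omega
    by_cases h' : q = pk (q / 3)
    · have h := hg.tr q hq h'
      rw [if_pos h', if_pos h, if_pos h, maj8, mnr8, if_pos h']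
      omega
    · rw [if_neg h', maj11, mnr11]
      split_ifs <;> omega
  · rw [FF11, mnr11, maj11]
    have hq : q < 3 * φ.length := by omega
    have hb := hg.bdd q hq
    by_cases h : τ (litAt φ q).2 = (litAt φ q).1
    · rw [if_pos h, if_pos h]
      have h1 := maj_tgt (φ := φ) (τ := τ) (pk := pk) (l := litAt φ q) (k := q + 1) h
        (by omega)
      omega
    · have h' : q ≠ pk (q / 3) := fun hc => h (hg.tr q hq hc)
      rw [if_neg h, if_neg h, maj9, mnr9, if_neg h', if_neg h']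
      omega

theorem maj_le (hg : Good φ τ pk) {x : L} (hx : x ∈ vs φ) :
    maj φ τ pk x ≤ 3 * φ.length + 7 ∧ mnr φ τ pk x ≤ 21 * φ.length + 30 := by
  obtain ⟨p, q⟩ := x
  have h12 := lt_twelve hx
  have hx' := mem_vs.1 hx
  simp only at h12 hx'
  have hq : q ≤ 3 * φ.length := by omega
  have hb : q < 3 * φ.length → (litAt φ q).2 + 1 ≤ 3 * φ.length + 1 := by
    intro h
    have := hg.bdd q h
    omega
  have hd := hg.div (q / 3)
  interval_cases p
  · rw [maj0, mnr0 (by norm_num)]; omega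
  · rw [maj1, mnr0 (by norm_num)]; omega
  · rw [maj2, mnr0 (by norm_num)]; omega
  · rw [maj3, mnr0 (by norm_num)]; omega
  · rw [maj4, mnr0 (by norm_num)]; omega
  · rw [maj5, mnr0 (by norm_num)]; omega
  · rw [maj6, mnr6]; omega
  · rw [maj7, mnr7]
    refine ⟨by omega, ?_⟩
    split_ifs <;> omega
  · rw [maj8, mnr8]
    refine ⟨?_, by omega⟩
    split_ifs <;> omega
  · rw [maj9, mnr9]
    refine ⟨?_, ?_⟩ <;> split_ifs <;> omega
  · rw [maj10, mnr10]
    refine ⟨?_, ?_⟩ <;> split_ifs <;> omega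
  · rw [maj11, mnr11]
    refine ⟨?_, by omega⟩
    split_ifs <;> omega

theorem reach_hub (hg : Good φ τ pk) : ∀ x ∈ vs φ,
    Relation.ReflTransGen (fun u w => u ∈ vs φ ∧ w = FF φ τ pk u) x (0, 0) := by
  have key : ∀ a b : ℕ, ∀ x ∈ vs φ, 3 * φ.length + 7 - maj φ τ pk x = a →
      21 * φ.length + 30 - mnr φ τ pk x = b →
      Relation.ReflTransGen (fun u w => u ∈ vs φ ∧ w = FF φ τ pk u) x (0, 0) := by
    intro a
    induction a using Nat.strong_induction_on with
    | _ a iha =>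
      intro b
      induction b using Nat.strong_induction_on with
      | _ b ihb =>
        intro x hx ha hb
        by_cases h0 : x.1 = 0
        · have : x = (0, 0) := by
            obtain ⟨p, q⟩ := x
            have := mem_vs.1 hx
            simp only at this h0
            subst h0
            congr 1
            omega
          rw [this]
        · have hF := FF_mem (τ := τ) (pk := pk) hx
          have b1 := maj_le hg hx
          have b2 := maj_le hg hF
          refine Relation.ReflTransGen.head ⟨hx, rfl⟩ ?_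
          rcases step_up hg hx h0 with h | ⟨h, h'⟩
          · exact iha _ (by omega) _ _ hF rfl rfl
          · exact ihb _ (by omega) _ hF (by omega) rfl
  intro x hx
  exact key _ _ x hx rfl rfl

end

end Helper240AS
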