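import Pool.Agent.helper240_AS.Defs

/-!
# Antistrong and strong spanning subdigraphs: the hub lemma
-/

set_option autoImplicit false

namespace Helper240AS

variable {V W : Type}

theorem IsForwardAntidirectedTrail.iff {A : V → V → Prop} {x y : V} {k : ℕ} {v : ℕ → V}
    {d : ℕ → Bool} (h : IsForwardAntidirectedTrail A x y k v d) {P Q : V → Prop}
    (hPQ : ∀ u w, A u w → (P u ↔ Q w)) : P x ↔ Q y := by
  have key : ∀ i < k, (P x ↔ if d i then P (v i) else Q (v i)) := by
    intro i
    induction i with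
    | zero => intro _; rw [h.first, h.start]; simp
    | succ i ih =>
      intro hi
      rw [ih (by omega)]
      have h1 := h.arc i (by omega)
      have h2 := h.alternating i hi
      unfold stepArc at h1
      cases hd : d i
      · rw [hd] at h1 h2
        have h3 : d (i + 1) = true := by simpa using h2
        rw [h3]
        simp only [Bool.false_eq_true, if_false, if_true] at h1 ⊢
        exact (hPQ _ _ h1).symm
      · rw [hd] at h1 h2
        have h3 : d (i + 1) = false := by simpa using h2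
        rw [h3]
        simp only [Bool.false_eq_true, if_false, if_true] at h1 ⊢
        exact hPQ _ _ h1
  have h1 := key (k - 1) (by have := h.pos; omega)
  have h2 := h.arc (k - 1) (by have := h.pos; omega)
  unfold stepArc at h2
  rw [h.last] at h1 h2
  simp only [if_true] at h1 h2
  rw [h1, ← h.finish]
  have : k - 1 + 1 = k := by have := h.pos; omega
  rw [this] at h2
  exact hPQ _ _ h2

/-- The bipartite representation of a digraph. -/
def BGraph (A : V → V → Prop) : SimpleGraph (V ⊕ V) where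
  Adj p q := (∃ u w, A u w ∧ p = Sum.inl u ∧ q = Sum.inr w) ∨
    (∃ u w, A u w ∧ q = Sum.inl u ∧ p = Sum.inr w)
  symm := ⟨fun _ _ h => h.symm⟩
  loopless := ⟨fun p h => by
    rcases h with ⟨u, w, _, h1, h2⟩ | ⟨u, w, _, h1, h2⟩ <;> rw [h1] at h2 <;> simp at h2⟩

theorem bGraph_adj_lr {A : V → V → Prop} {u w : V} :
    (BGraph A).Adj (Sum.inl u) (Sum.inr w) ↔ A u w := by
  simp [BGraph]

theorem bGraph_adj_rl {A : V → V → Prop} {u w : V} :
    (BGraph A).Adj (Sum.inr w) (Sum.inl u) ↔ A u w := by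
  simp [BGraph]

theorem bGraph_adj_ll {A : V → V → Prop} {u w : V} :
    ¬ (BGraph A).Adj (Sum.inl w) (Sum.inl u) := by
  simp [BGraph]

theorem bGraph_adj_rr {A : V → V → Prop} {u w : V} :
    ¬ (BGraph A).Adj (Sum.inr w) (Sum.inr u) := by
  simp [BGraph]

theorem exists_ne_ne [Fintype V] (h : 3 ≤ Fintype.card V) (a b : V) : ∃ y, y ≠ a ∧ y ≠ b := by
  classical
  by_contra hc
  push Not at hc
  have : (Finset.univ : Finset V) ⊆ {a, b} := by
    intro y _
    rw [Finset.mem_insert, Finset.mem_singleton]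
    by_cases hy : y = a
    · exact Or.inl hy
    · exact Or.inr (hc y hy)
  have h1 := Finset.card_le_card this
  have h2 : ({a, b} : Finset V).card ≤ 2 := Finset.card_le_two
  rw [Finset.card_univ] at h1
  omega

theorem Antistrong.iff [Fintype V] {A : V → V → Prop} (h : Antistrong A) {P Q : V → Prop}
    (hPQ : ∀ u w, A u w → (P u ↔ Q w)) {x y : V} (hxy : x ≠ y) : P x ↔ Q y := by
  obtain ⟨k, v, d, ht⟩ := h.2 x y hxy
  exact ht.iff hPQ

theorem antistrong_of_reachable [Fintype V] {A : V → V → Prop} (h3 : 3 ≤ Fintype.card V)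
    (h : ∀ x y : V, (BGraph A).Reachable (Sum.inl x) (Sum.inr y)) : Antistrong A := by
  refine ⟨h3, fun x y _ => ?_⟩
  obtain ⟨p, hp⟩ := (h x y).exists_isPath
  have hadj : ∀ i < p.length, (BGraph A).Adj (p.getVert i) (p.getVert (i + 1)) :=
    fun i hi => p.adj_getVert_succ hi
  set v : ℕ → V := fun i => Sum.elim id id (p.getVert i) with hv
  have hside : ∀ i ≤ p.length, p.getVert i = if i % 2 = 0 then Sum.inl (v i) else Sum.inr (v i) := by
    intro i
    induction i with
    | zero => intro _; simp [hv]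
    | succ i ih =>
      intro hi
      have h1 := ih (by omega)
      have h2 := hadj i (by omega)
      rw [h1] at h2
      by_cases hpar : i % 2 = 0
      · rw [if_pos hpar] at h2
        rw [if_neg (by omega)]
        rcases hq : p.getVert (i + 1) with q | q
        · rw [hq] at h2; exact absurd h2 bGraph_adj_ll
        · simp [hv, hq]
      · rw [if_neg hpar] at h2
        rw [if_pos (by omega)]
        rcases hq : p.getVert (i + 1) with q | q
        · simp [hv, hq]
        · rw [hq] at h2; exact absurd h2 bGraph_adj_rr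
  have hlen : p.length % 2 = 1 := by
    have h1 := hside p.length le_rfl
    rw [p.getVert_length] at h1
    by_contra hc
    rw [if_pos (by omega)] at h1
    simp at h1
  have harc : ∀ i < p.length, stepArc v (fun i => decide (i % 2 = 0)) i =
      if i % 2 = 0 then (v i, v (i + 1)) else (v (i + 1), v i) := by
    intro i _
    simp [stepArc]
  refine ⟨p.length, v, fun i => decide (i % 2 = 0), ?_⟩
  refine ⟨by omega, ?_, ?_, ?_, ?_, ?_, ?_, ?_⟩
  · simp [hv]
  · simp [hv, p.getVert_length]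
  · intro i hi
    rw [harc i hi]
    have h1 := hadj i hi
    rw [hside i hi.le, hside (i + 1) hi] at h1
    by_cases hpar : i % 2 = 0
    · rw [if_pos hpar, if_neg (by omega)] at h1
      rw [if_pos hpar]
      exact bGraph_adj_lr.1 h1
    · rw [if_neg hpar, if_pos (by omega)] at h1
      rw [if_neg hpar]
      exact bGraph_adj_rl.1 h1
  · have hinj := hp.getVert_injOn
    have hvi : ∀ i ≤ p.length, ∀ j ≤ p.length, i % 2 = j % 2 → v i = v j → i = j := by
      intro i hi j hj hpar hvv
      refine hinj (show i ∈ {i | i ≤ p.length} from hi) (show j ∈ {i | i ≤ p.length} from hj) ?_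
      rw [hside i hi, hside j hj, hpar, hvv]
    intro i hi j hj hij
    rw [harc i hi, harc j hj] at hij
    by_cases h1 : i % 2 = 0 <;> by_cases h2 : j % 2 = 0
    · rw [if_pos h1, if_pos h2, Prod.mk.injEq] at hij
      exact hvi i hi.le j hj.le (by omega) hij.1
    · rw [if_pos h1, if_neg h2, Prod.mk.injEq] at hij
      have e1 := hvi i hi.le (j + 1) hj (by omega) hij.1
      have e2 := hvi (i + 1) hi j hj.le (by omega) hij.2
      omega
    · rw [if_neg h1, if_pos h2, Prod.mk.injEq] at hij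
      have e1 := hvi (i + 1) hi j hj.le (by omega) hij.1
      have e2 := hvi i hi.le (j + 1) hj (by omega) hij.2
      omega
    · rw [if_neg h1, if_neg h2, Prod.mk.injEq] at hij
      exact hvi i hi.le j hj.le (by omega) hij.2
  · intro i _ hc
    simp only [decide_eq_decide] at hc
    omega
  · simp
  · simp only [decide_eq_true_eq]; omega

/-- In an antistrong digraph the bipartite representation is connected. -/
theorem Antistrong.reachable [Fintype V] {A : V → V → Prop} (h : Antistrong A) (x₀ : V) :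
    ∀ p, (BGraph A).Reachable (Sum.inl x₀) p := by
  have hPQ : ∀ u w, A u w → ((BGraph A).Reachable (Sum.inl x₀) (Sum.inl u) ↔
      (BGraph A).Reachable (Sum.inl x₀) (Sum.inr w)) := by
    intro u w huw
    constructor
    · intro h1
      exact h1.trans (bGraph_adj_lr.2 huw).reachable
    · intro h1
      exact h1.trans (bGraph_adj_rl.2 huw).reachable
  have hQ : ∀ y, y ≠ x₀ → (BGraph A).Reachable (Sum.inl x₀) (Sum.inr y) := fun y hy =>
    (h.iff hPQ hy.symm).1 (SimpleGraph.Reachable.refl _)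
  have hP : ∀ x, (BGraph A).Reachable (Sum.inl x₀) (Sum.inl x) := by
    intro x
    obtain ⟨y, hy1, hy2⟩ := exists_ne_ne h.1 x₀ x
    exact (h.iff hPQ hy2.symm).2 (hQ y hy1)
  intro p
  rcases p with x | y
  · exact hP x
  · by_cases hy : y = x₀
    · obtain ⟨z, hz, _⟩ := exists_ne_ne h.1 x₀ x₀
      rw [hy]
      exact (h.iff hPQ hz).1 (hP z)
    · exact hQ y hy

/-! ### The hub lemma -/

/-- Soundness of the hub construction. -/
theorem hub_sound [Fintype V] {A A₁ A₂ : V → V → Prop} {a b c s t : V} (hab : a ≠ b)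
    (h1 : ∀ u w, A₁ u w → A u w) (h2 : ∀ u w, A₂ u w → A u w)
    (hd : ∀ u w, ¬ (A₁ u w ∧ A₂ u w)) (hA1 : Antistrong A₁) (hA2 : StronglyConnected A₂)
    (hout : ∀ v, v ≠ a → v ≠ b → ∃ w₁ w₂, ∀ w, A v w → w = w₁ ∨ w = w₂)
    (hX : ∀ x, A a x → A b x → x = c ∨ x = s ∨ x = t) :
    ∃ f : V → V, Function.Bijective f ∧ (∀ v, A v (f v)) ∧ (f a = c ∨ f a = s ∨ f a = t) ∧
      (f b = c ∨ f b = s ∨ f b = t) ∧
      ∀ S : V → Prop, (∃ x, S x) → (∀ x, S x → S (f x)) → ∀ y, S y := by
  have ex1 : ∀ v, ∃ w, A₁ v w := by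
    intro v
    obtain ⟨y, hy, _⟩ := exists_ne_ne hA1.1 v v
    exact (hA1.iff (P := fun u => ∃ w, A₁ u w) (Q := fun _ => True)
      (fun u w huw => ⟨fun _ => trivial, fun _ => ⟨w, huw⟩⟩) hy.symm).2 trivial
  have ex2 : ∀ v, ∃ w, A₂ v w := by
    intro v
    obtain ⟨y, hy, _⟩ := exists_ne_ne hA1.1 v v
    rcases (hA2 v y).cases_head with h | ⟨w, h, _⟩
    · exact absurd h hy.symm
    · exact ⟨w, h⟩
  have ex3 : ∀ v, ∃ u, A₂ u v := by
    intro v
    obtain ⟨y, hy, _⟩ := exists_ne_ne hA1.1 v v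
    rcases (hA2 y v).cases_tail with h | ⟨w, _, h⟩
    · exact absurd h hy.symm
    · exact ⟨w, h⟩
  have un1 : ∀ v, v ≠ a → v ≠ b → ∀ w w', A₁ v w → A₁ v w' → w = w' := by
    intro v hva hvb w w' hw hw'
    obtain ⟨w₁, w₂, hww⟩ := hout v hva hvb
    obtain ⟨z, hz⟩ := ex2 v
    have e1 := hww w (h1 _ _ hw)
    have e2 := hww w' (h1 _ _ hw')
    have e3 := hww z (h2 _ _ hz)
    have n1 : w ≠ z := fun h => hd v w ⟨hw, h ▸ hz⟩
    have n2 : w' ≠ z := fun h => hd v w' ⟨hw', h ▸ hz⟩
    rcases e1 with rfl | rfl <;> rcases e2 with rfl | rfl <;> rcases e3 with rfl | rfl <;>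
      first | rfl | exact absurd rfl n1 | exact absurd rfl n2
  have un2 : ∀ v, v ≠ a → v ≠ b → ∀ w w', A₂ v w → A₂ v w' → w = w' := by
    intro v hva hvb w w' hw hw'
    obtain ⟨w₁, w₂, hww⟩ := hout v hva hvb
    obtain ⟨z, hz⟩ := ex1 v
    have e1 := hww w (h2 _ _ hw)
    have e2 := hww w' (h2 _ _ hw')
    have e3 := hww z (h1 _ _ hz)
    have n1 : w ≠ z := fun h => hd v z ⟨hz, h ▸ hw⟩
    have n2 : w' ≠ z := fun h => hd v z ⟨hz, h ▸ hw'⟩
    rcases e1 with rfl | rfl <;> rcases e2 with rfl | rfl <;> rcases e3 with rfl | rfl <;>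
      first | rfl | exact absurd rfl n1 | exact absurd rfl n2
  -- every vertex is covered by a hub in the first subdigraph
  have cover : ∀ x, A₁ a x ∨ A₁ b x := by
    intro x
    by_contra hc
    push Not at hc
    have hPQ : ∀ u w, A₁ u w → (A₁ u x ↔ w = x) := by
      intro u w huw
      constructor
      · intro hux
        refine un1 u ?_ ?_ w x huw hux
        · rintro rfl; exact hc.1 hux
        · rintro rfl; exact hc.2 hux
      · rintro rfl; exact huw
    by_cases hax : a = x
    · have hbx : b ≠ x := fun h => hab (hax.trans h.symm)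
      exact hc.2 ((hA1.iff (P := fun u => A₁ u x) (Q := fun w => w = x) hPQ hbx).2 rfl)
    · exact hc.1 ((hA1.iff (P := fun u => A₁ u x) (Q := fun w => w = x) hPQ hax).2 rfl)
  have both : ∃ z, A₁ a z ∧ A₁ b z := by
    by_contra hc
    push Not at hc
    have hPQ : ∀ u w, A₁ u w → ((u ≠ b ∧ (u = a ∨ ∃ x, A₁ u x ∧ A₁ a x)) ↔ A₁ a w) := by
      intro u w huw
      by_cases hua : u = a
      · subst hua
        exact ⟨fun _ => huw, fun _ => ⟨hab, Or.inl rfl⟩⟩
      · by_cases hub : u = b
        · subst hub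
          exact ⟨fun h => absurd rfl h.1, fun h => absurd huw (hc w h)⟩
        · constructor
          · rintro ⟨_, h | ⟨x, hx1, hx2⟩⟩
            · exact absurd h hua
            · rw [un1 u hua hub w x huw hx1]; exact hx2
          · intro h
            exact ⟨hub, Or.inr ⟨w, huw, h⟩⟩
    obtain ⟨y, hya, hyb⟩ := exists_ne_ne hA1.1 a b
    have e1 := hA1.iff (P := fun u => u ≠ b ∧ (u = a ∨ ∃ x, A₁ u x ∧ A₁ a x))
      (Q := fun w => A₁ a w) hPQ hya.symm
    have e2 := hA1.iff (P := fun u => u ≠ b ∧ (u = a ∨ ∃ x, A₁ u x ∧ A₁ a x))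
      (Q := fun w => A₁ a w) hPQ hyb.symm
    have e3 := e1.1 ⟨hab, Or.inl rfl⟩
    exact (e2.2 e3).1 rfl
  have ina : ∀ x, A₂ a x → x = c ∨ x = s ∨ x = t := by
    intro x hx
    rcases cover x with h | h
    · exact absurd ⟨h, hx⟩ (hd _ _)
    · exact hX x (h2 _ _ hx) (h1 _ _ h)
  have inb : ∀ x, A₂ b x → x = c ∨ x = s ∨ x = t := by
    intro x hx
    rcases cover x with h | h
    · exact hX x (h1 _ _ h) (h2 _ _ hx)
    · exact absurd ⟨h, hx⟩ (hd _ _)
  have nab : ∀ x y, A₂ a x → A₂ b y → x ≠ y := by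
    rintro x y hx hy rfl
    rcases cover x with h | h
    · exact hd _ _ ⟨h, hx⟩
    · exact hd _ _ ⟨h, hy⟩
  obtain ⟨z, hz1, hz2⟩ := both
  have inz := hX z (h1 _ _ hz1) (h1 _ _ hz2)
  have nza : ∀ x, A₂ a x → z ≠ x := by
    rintro x hx rfl; exact hd _ _ ⟨hz1, hx⟩
  have nzb : ∀ x, A₂ b x → z ≠ x := by
    rintro x hx rfl; exact hd _ _ ⟨hz2, hx⟩
  have four : ∀ x y z w : V, (x = c ∨ x = s ∨ x = t) → (y = c ∨ y = s ∨ y = t) →
      (z = c ∨ z = s ∨ z = t) → (w = c ∨ w = s ∨ w = t) → x ≠ y → x ≠ z → x ≠ w → y ≠ z →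
      y ≠ w → z = w := by
    rintro x y z w hx hy hz hw h1 h2 h3 h4 h5
    rcases hx with rfl | rfl | rfl <;> rcases hy with rfl | rfl | rfl <;>
      rcases hz with rfl | rfl | rfl <;> rcases hw with rfl | rfl | rfl <;>
      first | rfl | exact absurd rfl h1 | exact absurd rfl h2 | exact absurd rfl h3 |
        exact absurd rfl h4 | exact absurd rfl h5
  have una : ∀ w w', A₂ a w → A₂ a w' → w = w' := by
    intro w w' hw hw'
    obtain ⟨y, hy⟩ := ex2 b
    exact four z y w w' inz (inb y hy) (ina w hw) (ina w' hw') (nzb y hy) (nza w hw) (nza w' hw')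
      (nab w y hw hy).symm (nab w' y hw' hy).symm
  have unb : ∀ w w', A₂ b w → A₂ b w' → w = w' := by
    intro w w' hw hw'
    obtain ⟨y, hy⟩ := ex2 a
    exact four z y w w' inz (ina y hy) (inb w hw) (inb w' hw') (nza y hy) (nzb w hw) (nzb w' hw')
      (nab y w hy hw) (nab y w' hy hw')
  have un : ∀ v w w', A₂ v w → A₂ v w' → w = w' := by
    intro v w w' hw hw'
    by_cases hva : v = a
    · subst hva; exact una w w' hw hw'
    · by_cases hvb : v = b
      · subst hvb; exact unb w w' hw hw'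
      · exact un2 v hva hvb w w' hw hw'
  choose f hf using ex2
  refine ⟨f, ?_, fun v => h2 _ _ (hf v), ina _ (hf a), inb _ (hf b), ?_⟩
  · rw [← Finite.surjective_iff_bijective]
    intro v
    obtain ⟨u, hu⟩ := ex3 v
    exact ⟨u, un u _ _ (hf u) hu⟩
  · rintro S ⟨x, hx⟩ hS y
    induction hA2 x y with
    | refl => exact hx
    | tail _ hbc ih => rw [un _ _ _ hbc (hf _)]; exact hS _ ih

/-- Completeness of the hub construction. -/
theorem hub_complete [Fintype V] {A : V → V → Prop} {a b c s t : V} (h3 : 3 ≤ Fintype.card V)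
    (hta : t ≠ a) (hts : t ≠ s) (htc : t ≠ c) (hac : a ≠ c) (hsc : s ≠ c)
    (hAa : ∀ w, w ≠ a → A a w) (hba : A b a) (hbs : A b s) (hbt : A b t)
    {f : V → V} (hf : ∀ v, A v (f v)) (hfa : f a = s) (hfb : f b = c)
    (hreach : ∀ x y, Relation.ReflTransGen (fun u w => w = f u) x y)
    (hoth : ∀ v, v ≠ a → v ≠ b → ∃ w, A v w ∧ w ≠ f v) : HasPair A := by
  refine ⟨fun u w => A u w ∧ w ≠ f u, fun u w => w = f u, fun u w h => h.1, ?_, ?_, ?_, hreach⟩
  · rintro u w rfl; exact hf u
  · rintro u w ⟨h1, h2⟩; exact h1.2 h2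
  · set B := BGraph (fun u w => A u w ∧ w ≠ f u) with hB
    have r1 : ∀ w, w ≠ a → w ≠ s → B.Reachable (Sum.inl a) (Sum.inr w) := fun w hwa hws =>
      (bGraph_adj_lr.2 ⟨hAa w hwa, by rw [hfa]; exact hws⟩).reachable
    have r2 : B.Reachable (Sum.inl a) (Sum.inl b) := (r1 t hta hts).trans
      (bGraph_adj_rl.2 ⟨hbt, by rw [hfb]; exact htc⟩).reachable
    have r3 : B.Reachable (Sum.inl a) (Sum.inr a) := r2.trans
      (bGraph_adj_lr.2 ⟨hba, by rw [hfb]; exact hac⟩).reachable
    have r4 : B.Reachable (Sum.inl a) (Sum.inr s) := r2.trans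
      (bGraph_adj_lr.2 ⟨hbs, by rw [hfb]; exact hsc⟩).reachable
    have r5 : ∀ w, B.Reachable (Sum.inl a) (Sum.inr w) := by
      intro w
      by_cases hwa : w = a
      · rw [hwa]; exact r3
      · by_cases hws : w = s
        · rw [hws]; exact r4
        · exact r1 w hwa hws
    have r6 : ∀ v, B.Reachable (Sum.inl a) (Sum.inl v) := by
      intro v
      by_cases hva : v = a
      · rw [hva]
      · by_cases hvb : v = b
        · rw [hvb]; exact r2
        · obtain ⟨w, hw⟩ := hoth v hva hvb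
          exact (r5 w).trans
            ((bGraph_adj_rl (A := fun u w => A u w ∧ w ≠ f u)).2 hw).reachable
    exact antistrong_of_reachable h3 fun x y => (r6 x).symm.trans (r5 y)

end Helper240AS
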