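import Pool.Agent.H622R2.MatGraph

/-!
# Antistrong and strongly connected spanning subdigraphs: definitions
-/

set_option autoImplicit false

namespace Helper240AS

open Pool.Agent.H622R2

variable {V : Type}

/-- The arc used by step `i` of the walk `v 0, v 1, ...`: it is the arc from `v i` to `v (i + 1)`
when the step is forward (`d i = true`), and the arc from `v (i + 1)` to `v i` when the step is
backward. -/
def stepArc (v : ℕ → V) (d : ℕ → Bool) (i : ℕ) : V × V :=
  if d i then (v i, v (i + 1)) else (v (i + 1), v i)

/-- In the digraph with arc relation `A`, the vertices `v 0, ..., v k` with the directions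
`d 0, ..., d (k - 1)` of the steps form a forward antidirected trail from `x` to `y`: all the arcs
used are arcs of the digraph, no arc is used twice, forward and backward steps alternate, and the
first and the last step are forward. -/
structure IsForwardAntidirectedTrail (A : V → V → Prop) (x y : V) (k : ℕ) (v : ℕ → V)
    (d : ℕ → Bool) : Prop where
  pos : 0 < k
  start : v 0 = x
  finish : v k = y
  arc : ∀ i < k, A (stepArc v d i).1 (stepArc v d i).2
  trail : ∀ i < k, ∀ j < k, stepArc v d i = stepArc v d j → i = j
  alternating : ∀ i, i + 1 < k → d (i + 1) ≠ d i
  first : d 0 = true
  last : d (k - 1) = true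

/-- A digraph (given by its arc relation) is antistrong when it has at least three vertices and
there is a forward antidirected trail from `x` to `y` for all distinct vertices `x`, `y`. -/
def Antistrong [Fintype V] (A : V → V → Prop) : Prop :=
  3 ≤ Fintype.card V ∧ ∀ x y : V, x ≠ y → ∃ k v d, IsForwardAntidirectedTrail A x y k v d

/-- A digraph is strongly connected when for all vertices `x`, `y` there is a directed path from
`x` to `y`. -/
def StronglyConnected (A : V → V → Prop) : Prop := ∀ x y : V, Relation.ReflTransGen A x y

/-- The digraph with arc relation `A` has two arc-disjoint spanning subdigraphs, the first one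
antistrong and the second one strongly connected. -/
def HasPair [Fintype V] (A : V → V → Prop) : Prop :=
  ∃ A₁ A₂ : V → V → Prop, (∀ u w, A₁ u w → A u w) ∧ (∀ u w, A₂ u w → A u w) ∧
    (∀ u w, ¬ (A₁ u w ∧ A₂ u w)) ∧ Antistrong A₁ ∧ StronglyConnected A₂

/-- The arc relation of the digraph on `0, ..., n - 1` given by a Boolean matrix with `n` rows: there
is an arc from `i` to `j` when `i` and `j` are distinct and the entry `(i, j)` is `true`. -/
def matArc (M : List (List Bool)) (i j : Fin M.length) : Prop := i ≠ j ∧ entry M i j = true

/-- The decision problem: does the digraph given by the adjacency matrix have two arc-disjoint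
spanning subdigraphs, the first antistrong and the second strongly connected? -/
def AntistrongStrong (M : List (List Bool)) : Prop := HasPair (matArc M)

end Helper240AS
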