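import Pool.Agent.helper240_AS.Iff
import Pool.Agent.NPC.Dec
import Pool.Agent.H671R2.PolyAuto
import Pool.Agent.H622R2.Base

/-!
# NP-completeness
-/

set_option autoImplicit false

namespace Helper240AS

open Pool.Agent.NPC Pool.Agent.H622R2

variable {V W : Type}

theorem antistrong_equiv [Fintype V] [Fintype W] (e : V ≃ W) {A : V → V → Prop}
    {B : W → W → Prop} (h : ∀ u w, A u w → B (e u) (e w)) (hA : Antistrong A) :
    Antistrong B := by
  refine ⟨by rw [← Fintype.card_congr e]; exact hA.1, fun x y hxy => ?_⟩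
  obtain ⟨k, v, d, ht⟩ := hA.2 (e.symm x) (e.symm y) (fun hc => hxy (e.symm.injective hc))
  have hs : ∀ i, stepArc (fun i => e (v i)) d i = Prod.map e e (stepArc v d i) := by
    intro i
    unfold stepArc
    cases d i <;> rfl
  refine ⟨k, fun i => e (v i), d, ht.pos, ?_, ?_, ?_, ?_, ht.alternating, ht.first, ht.last⟩
  · rw [ht.start]; simp
  · rw [ht.finish]; simp
  · intro i hi
    rw [hs]
    exact h _ _ (ht.arc i hi)
  · intro i hi j hj hij
    rw [hs, hs] at hij
    exact ht.trail i hi j hj (Function.Injective.prodMap e.injective e.injective hij)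

theorem hasPair_imp [Fintype V] [Fintype W] (e : V ≃ W) {A : V → V → Prop}
    {B : W → W → Prop} (h : ∀ u w, A u w → B (e u) (e w)) (hA : HasPair A) : HasPair B := by
  obtain ⟨A₁, A₂, h1, h2, hd, hA1, hA2⟩ := hA
  refine ⟨fun x y => A₁ (e.symm x) (e.symm y), fun x y => A₂ (e.symm x) (e.symm y), ?_, ?_,
    fun u w => hd _ _, ?_, ?_⟩
  · intro u w huw
    have := h _ _ (h1 _ _ huw)
    simpa using this
  · intro u w huw
    have := h _ _ (h2 _ _ huw)
    simpa using this
  · exact antistrong_equiv e (by intro u w huw; simpa using huw) hA1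
  · intro x y
    have := (hA2 (e.symm x) (e.symm y)).lift e
      (p := fun x y => A₂ (e.symm x) (e.symm y)) (by
        intro u w huw; simpa [Function.onFun] using huw)
    simpa [Function.onFun] using this

theorem hasPair_equiv [Fintype V] [Fintype W] (e : V ≃ W) {A : V → V → Prop}
    {B : W → W → Prop} (h : ∀ u w, A u w ↔ B (e u) (e w)) : HasPair A ↔ HasPair B :=
  ⟨hasPair_imp e fun u w => (h u w).1, hasPair_imp e.symm fun u w huw => by
    rw [h]; simpa using huw⟩

/-- the reduction -/
def red (φ : List Cl) : List (List Bool) := mat (vs φ) (arcB φ)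

theorem red_iff (φ : List Cl) (hB : Bdd φ) : Sat3V ℕ φ ↔ AntistrongStrong (red φ) := by
  have h1 : AntistrongStrong (red φ) ↔ HasPair (labArc φ) := by
    refine hasPair_equiv ((finCongr (mat_length (vs φ) (arcB φ))).trans
      (List.Nodup.getEquiv (vs φ) (nodup_vs φ))) ?_
    intro a b
    simp only [matArc, labArc, red, Equiv.trans_apply, List.Nodup.getEquiv, Equiv.coe_fn_mk,
      finCongr_apply]
    have ha : a.1 < (vs φ).length := lt_of_lt_of_eq a.2 (mat_length _ _)
    have hb : b.1 < (vs φ).length := lt_of_lt_of_eq b.2 (mat_length _ _)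
    rw [entry_mat _ _ _ _ ha hb]
    have h1 : (⟨(vs φ).get (Fin.cast (mat_length (vs φ) (arcB φ)) a), List.get_mem _ _⟩ :
        {x // x ∈ vs φ}) ≠ ⟨(vs φ).get (Fin.cast (mat_length (vs φ) (arcB φ)) b),
          List.get_mem _ _⟩ ↔ a ≠ b := by
      rw [not_iff_not, Subtype.mk.injEq, (nodup_vs φ).injective_get.eq_iff]
      simp [Fin.ext_iff]
    constructor
    · rintro ⟨h, h'⟩
      exact ⟨h1.2 h, h'⟩
    · rintro ⟨h, h'⟩
      exact ⟨h1.1 h, h'⟩
  rw [h1]
  exact ⟨complete hB, sound⟩

theorem flatL_length (φ : List Cl) : (flatL φ).length = 3 * φ.length := by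
  unfold flatL
  induction φ with
  | nil => rfl
  | cons c φ ih => simp only [List.flatMap_cons, List.length_append, ih, List.length_cons,
      List.length_nil]; omega

theorem vars3_length (φ : List Cl) : (vars3 φ).length = 3 * φ.length := by
  unfold vars3
  induction φ with
  | nil => rfl
  | cons c φ ih => simp only [List.flatMap_cons, List.length_append, ih, List.length_cons,
      List.length_nil]; omega

theorem bdd_ren3 (φ : List Cl) : Bdd (ren3 φ) := by
  intro k hk
  have hlen : (ren3 φ).length = φ.length := by simp [ren3]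
  have hk' : k < (flatL (ren3 φ)).length := by rw [flatL_length]; exact hk
  have hmem : litAt (ren3 φ) k ∈ flatL (ren3 φ) := by
    unfold litAt
    rw [List.getD_eq_getElem _ _ hk']
    exact List.getElem_mem hk'
  have hlt : ∀ v ∈ vars3 φ, index (vars3 φ) v < 3 * φ.length := by
    intro v hv
    have := getElem?_index hv
    rw [List.getElem?_eq_some_iff] at this
    obtain ⟨h, _⟩ := this
    rwa [vars3_length] at h
  rw [hlen]
  unfold flatL at hmem
  rw [List.mem_flatMap] at hmem
  obtain ⟨c, hc, hm⟩ := hmem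
  unfold ren3 at hc
  rw [List.mem_map] at hc
  obtain ⟨d, hd, rfl⟩ := hc
  obtain ⟨h1, h2, h3⟩ := mem_vars3 hd
  simp only [List.mem_cons, List.not_mem_nil, or_false] at hm
  rcases hm with h | h | h <;> rw [h]
  · exact hlt _ h1
  · exact hlt _ h2
  · exact hlt _ h3

section PolyTime

variable {α : Type} [TEnc α]

@[fun_prop]
theorem flatL_poly {φ : α → List Cl} (h : Poly φ) : Poly (fun a => flatL (φ a)) := by
  unfold flatL; fun_prop

@[fun_prop]
theorem litAt_poly {φ : α → List Cl} {k : α → ℕ} (h : Poly φ) (hk : Poly k) :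
    Poly (fun a => litAt (φ a) (k a)) := by
  unfold litAt; fun_prop

@[fun_prop]
theorem range3_poly {l : α → List Cl} (hl : Poly l) :
    Poly (fun a => List.range (3 * (l a).length)) := by
  have h : UPoly (fun a => 3 * (l a).length) := (UPoly.const 3).mul (UPoly.length hl)
  exact h.range

@[fun_prop]
theorem range31_poly {l : α → List Cl} (hl : Poly l) :
    Poly (fun a => List.range (3 * (l a).length + 1)) := by
  have h : UPoly (fun a => 3 * (l a).length + 1) :=
    ((UPoly.const 3).mul (UPoly.length hl)).add (UPoly.const 1)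
  exact h.range

@[fun_prop]
theorem nx_poly {e : α → ℕ} (he : Poly e) : Poly (fun a => nx (e a)) := by
  unfold nx; fun_prop

@[fun_prop]
theorem K_poly {φ : α → List Cl} {e : α → ℕ} (h : Poly φ) (he : Poly e) :
    Poly (fun a => K (φ a) (e a)) := by
  unfold K; fun_prop

@[fun_prop]
theorem X_poly {φ : α → List Cl} {e : α → ℕ} (h : Poly φ) (he : Poly e) :
    Poly (fun a => X (φ a) (e a)) := by
  unfold X; fun_prop

@[fun_prop]
theorem nxt_poly {φ : α → List Cl} {l : α → Lit ℕ} {k : α → ℕ} (h : Poly φ) (hl : Poly l)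
    (hk : Poly k) : Poly (fun a => nxt (φ a) (l a) (k a)) := by
  unfold nxt; fun_prop

@[fun_prop]
theorem tgt_poly {φ : α → List Cl} {l : α → Lit ℕ} {k : α → ℕ} (h : Poly φ) (hl : Poly l)
    (hk : Poly k) : Poly (fun a => tgt (φ a) (l a) (k a)) := by
  unfold tgt; fun_prop

@[fun_prop]
theorem o1_poly {φ : α → List Cl} {x : α → L} (h : Poly φ) (hx : Poly x) :
    Poly (fun a => o1 (φ a) (x a)) := by
  unfold o1; fun_prop

@[fun_prop]
theorem o2_poly {φ : α → List Cl} {x : α → L} (h : Poly φ) (hx : Poly x) :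
    Poly (fun a => o2 (φ a) (x a)) := by
  unfold o2; fun_prop

@[fun_prop]
theorem vs_poly {φ : α → List Cl} (h : Poly φ) : Poly (fun a => vs (φ a)) := by
  unfold vs; fun_prop

@[fun_prop]
theorem arcB_poly {φ : α → List Cl} {x y : α → L} (h : Poly φ) (hx : Poly x) (hy : Poly y) :
    Poly (fun a => arcB (φ a) (x a) (y a)) := by
  unfold arcB; fun_prop

theorem red_poly : Poly red := by
  unfold red
  exact mat_poly (adj := fun φ => arcB φ) (vs_poly Poly.id)
    (arcB_poly (by fun_prop) (by fun_prop) (by fun_prop))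

end PolyTime

theorem hardI_AntistrongStrong : HardI AntistrongStrong :=
  HardI.trans (P := SAT3) hardI_SAT3 (f := fun φ => red (ren3 φ))
    (Poly.comp (g := red) (f := ren3 (V := ℕ)) red_poly ren3_poly)
    (fun φ => (ren3_sat φ).trans (red_iff _ (bdd_ren3 φ)))

/-! ### Membership in NP -/

/-- reachability in a given number of steps -/
def RIn {α : Type} (R : α → α → Prop) (r : α) : ℕ → α → Prop
  | 0, v => v = r
  | k + 1, v => ∃ u, RIn R r k u ∧ R u v

theorem exists_rank {α : Type} [Fintype α] {R : α → α → Prop} {r : α}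
    (h : ∀ v, Relation.ReflTransGen R r v) : ∃ ρ : α → ℕ, (∀ v, ρ v < Fintype.card α) ∧
      ∀ v, v ≠ r → ∃ u, R u v ∧ ρ u < ρ v := by
  classical
  have h1 : ∀ v, ∃ k, RIn R r k v := by
    intro v
    induction h v with
    | refl => exact ⟨0, rfl⟩
    | tail _ hbc ih =>
      obtain ⟨k, hk⟩ := ih
      exact ⟨k + 1, _, hk, hbc⟩
  have hstep : ∀ v, Nat.find (h1 v) ≠ 0 → ∃ u, R u v ∧ Nat.find (h1 u) + 1 = Nat.find (h1 v) := by
    intro v hv
    obtain ⟨k, hk⟩ := Nat.exists_eq_succ_of_ne_zero hv
    have hs := Nat.find_spec (h1 v)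
    rw [hk] at hs
    obtain ⟨u, hu, huv⟩ := hs
    refine ⟨u, huv, ?_⟩
    have h2 : Nat.find (h1 u) ≤ k := Nat.find_min' _ hu
    have h3 : Nat.find (h1 v) ≤ Nat.find (h1 u) + 1 :=
      Nat.find_min' _ ⟨u, Nat.find_spec (h1 u), huv⟩
    omega
  refine ⟨fun v => Nat.find (h1 v), ?_, ?_⟩
  · intro v
    have key : ∀ k v, Nat.find (h1 v) = k → ∀ j ≤ k, ∃ u, Nat.find (h1 u) = j := by
      intro k
      induction k with
      | zero => intro v hv j hj; exact ⟨v, by omega⟩
      | succ k ih =>
        intro v hv j hj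
        by_cases hjk : j = k + 1
        · exact ⟨v, by omega⟩
        · obtain ⟨u, _, hu⟩ := hstep v (by omega)
          exact ih u (by omega) j (by omega)
    have h2 : ∀ j : Fin (Nat.find (h1 v) + 1), ∃ u, Nat.find (h1 u) = j.1 := fun j =>
      key _ v rfl j.1 (by have := j.2; omega)
    choose g hg using h2
    have hinj : Function.Injective g := by
      intro i j hij
      have := hg i
      rw [hij, hg j] at this
      exact Fin.ext this.symm
    have := Fintype.card_le_of_injective g hinj
    rw [Fintype.card_fin] at this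
    change Nat.find (h1 v) < _
    omega
  · intro v hv
    obtain ⟨u, hu1, hu2⟩ := hstep v (by
      intro h0
      have := Nat.find_spec (h1 v)
      rw [h0] at this
      exact hv this)
    exact ⟨u, hu1, by change Nat.find (h1 u) < Nat.find (h1 v); omega⟩

theorem reach_of_rank {α : Type} {R : α → α → Prop} {r : α} {ρ : α → ℕ}
    (h : ∀ v, v ≠ r → ∃ u, R u v ∧ ρ u < ρ v) : ∀ v, Relation.ReflTransGen R r v := by
  have key : ∀ k v, ρ v = k → Relation.ReflTransGen R r v := by
    intro k
    induction k using Nat.strong_induction_on with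
    | _ k ih =>
      intro v hv
      by_cases hvr : v = r
      · rw [hvr]
      · obtain ⟨u, hu1, hu2⟩ := h v hvr
        exact (ih _ (by omega) u rfl).tail hu1
  intro v
  exact key _ v rfl

/-- arcs of the first subdigraph -/
def aB (M M' : List (List Bool)) (i j : ℕ) : Bool :=
  !decide (i = j) && (entry M i j && entry M' i j)

/-- arcs of the second subdigraph -/
def bB (M M' : List (List Bool)) (i j : ℕ) : Bool :=
  !decide (i = j) && (entry M i j && !entry M' i j)

/-- certificates -/
abbrev Cert : Type := List (List Bool) × (List ℕ × (List ℕ × (List ℕ × List ℕ)))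

/-- the left vertices have neighbours of smaller rank -/
def chkL (M M' : List (List Bool)) (l₁ l₂ : List ℕ) : Bool :=
  (List.range M.length).all (fun i => decide (i = 0) || (List.range M.length).any (fun j =>
    aB M M' i j && decide (l₂.getD j 0 < l₁.getD i 0)))

/-- the right vertices have neighbours of smaller rank -/
def chkR (M M' : List (List Bool)) (l₁ l₂ : List ℕ) : Bool :=
  (List.range M.length).all (fun j => (List.range M.length).any (fun i =>
    aB M M' i j && decide (l₁.getD i 0 < l₂.getD j 0)))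

/-- every vertex has an in-neighbour of smaller rank -/
def chkI (M M' : List (List Bool)) (l : List ℕ) : Bool :=
  (List.range M.length).all (fun j => decide (j = 0) || (List.range M.length).any (fun i =>
    bB M M' i j && decide (l.getD i 0 < l.getD j 0)))

/-- every vertex has an out-neighbour of smaller rank -/
def chkO (M M' : List (List Bool)) (l : List ℕ) : Bool :=
  (List.range M.length).all (fun i => decide (i = 0) || (List.range M.length).any (fun j =>
    bB M M' i j && decide (l.getD j 0 < l.getD i 0)))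

/-- the verifier -/
def chk (p : List (List Bool) × Cert) : Bool :=
  decide (3 ≤ p.1.length) && (chkL p.1 p.2.1 p.2.2.1 p.2.2.2.1 && (chkR p.1 p.2.1 p.2.2.1 p.2.2.2.1 &&
    (chkI p.1 p.2.1 p.2.2.2.2.1 && chkO p.1 p.2.1 p.2.2.2.2.2)))

section PolyTime2

variable {α : Type} [TEnc α]

@[fun_prop]
theorem entry_poly {M : α → List (List Bool)} {i j : α → ℕ} (hM : Poly M) (hi : Poly i)
    (hj : Poly j) : Poly (fun a => entry (M a) (i a) (j a)) := by
  unfold entry; fun_prop

@[fun_prop]
theorem aB_poly {M M' : α → List (List Bool)} {i j : α → ℕ} (hM : Poly M) (hM' : Poly M')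
    (hi : Poly i) (hj : Poly j) : Poly (fun a => aB (M a) (M' a) (i a) (j a)) := by
  unfold aB; fun_prop

@[fun_prop]
theorem bB_poly {M M' : α → List (List Bool)} {i j : α → ℕ} (hM : Poly M) (hM' : Poly M')
    (hi : Poly i) (hj : Poly j) : Poly (fun a => bB (M a) (M' a) (i a) (j a)) := by
  unfold bB; fun_prop

@[fun_prop]
theorem rangeM_poly {l : α → List (List Bool)} (hl : Poly l) :
    Poly (fun a => List.range (l a).length) := Poly.range_length hl

@[fun_prop]
theorem chkL_poly {M M' : α → List (List Bool)} {l₁ l₂ : α → List ℕ} (hM : Poly M)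
    (hM' : Poly M') (h₁ : Poly l₁) (h₂ : Poly l₂) :
    Poly (fun a => chkL (M a) (M' a) (l₁ a) (l₂ a)) := by
  unfold chkL; fun_prop

@[fun_prop]
theorem chkR_poly {M M' : α → List (List Bool)} {l₁ l₂ : α → List ℕ} (hM : Poly M)
    (hM' : Poly M') (h₁ : Poly l₁) (h₂ : Poly l₂) :
    Poly (fun a => chkR (M a) (M' a) (l₁ a) (l₂ a)) := by
  unfold chkR; fun_prop

@[fun_prop]
theorem chkI_poly {M M' : α → List (List Bool)} {l : α → List ℕ} (hM : Poly M)
    (hM' : Poly M') (h : Poly l) : Poly (fun a => chkI (M a) (M' a) (l a)) := by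
  unfold chkI; fun_prop

@[fun_prop]
theorem chkO_poly {M M' : α → List (List Bool)} {l : α → List ℕ} (hM : Poly M)
    (hM' : Poly M') (h : Poly l) : Poly (fun a => chkO (M a) (M' a) (l a)) := by
  unfold chkO; fun_prop

theorem chk_poly : Poly chk := by
  unfold chk; fun_prop

end PolyTime2

theorem chkL_iff {M M' : List (List Bool)} {l₁ l₂ : List ℕ} : chkL M M' l₁ l₂ = true ↔
    ∀ i : Fin M.length, i.1 = 0 ∨ ∃ j : Fin M.length, aB M M' i j = true ∧
      l₂.getD j 0 < l₁.getD i 0 := by
  simp only [chkL, List.all_eq_true, List.mem_range, Bool.or_eq_true, decide_eq_true_eq,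
    List.any_eq_true, Bool.and_eq_true]
  constructor
  · intro h i
    rcases h i.1 i.2 with h | ⟨j, hj, h⟩
    · exact Or.inl h
    · exact Or.inr ⟨⟨j, hj⟩, h⟩
  · intro h i hi
    rcases h ⟨i, hi⟩ with h | ⟨j, h⟩
    · exact Or.inl h
    · exact Or.inr ⟨j.1, j.2, h⟩

theorem chkR_iff {M M' : List (List Bool)} {l₁ l₂ : List ℕ} : chkR M M' l₁ l₂ = true ↔
    ∀ j : Fin M.length, ∃ i : Fin M.length, aB M M' i j = true ∧
      l₁.getD i 0 < l₂.getD j 0 := by
  simp only [chkR, List.all_eq_true, List.mem_range, decide_eq_true_eq,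
    List.any_eq_true, Bool.and_eq_true]
  constructor
  · intro h j
    obtain ⟨i, hi, h⟩ := h j.1 j.2
    exact ⟨⟨i, hi⟩, h⟩
  · intro h j hj
    obtain ⟨i, h⟩ := h ⟨j, hj⟩
    exact ⟨i.1, i.2, h⟩

theorem chkI_iff {M M' : List (List Bool)} {l : List ℕ} : chkI M M' l = true ↔
    ∀ j : Fin M.length, j.1 = 0 ∨ ∃ i : Fin M.length, bB M M' i j = true ∧
      l.getD i 0 < l.getD j 0 := by
  simp only [chkI, List.all_eq_true, List.mem_range, Bool.or_eq_true, decide_eq_true_eq,
    List.any_eq_true, Bool.and_eq_true]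
  constructor
  · intro h i
    rcases h i.1 i.2 with h | ⟨j, hj, h⟩
    · exact Or.inl h
    · exact Or.inr ⟨⟨j, hj⟩, h⟩
  · intro h i hi
    rcases h ⟨i, hi⟩ with h | ⟨j, h⟩
    · exact Or.inl h
    · exact Or.inr ⟨j.1, j.2, h⟩

theorem chkO_iff {M M' : List (List Bool)} {l : List ℕ} : chkO M M' l = true ↔
    ∀ i : Fin M.length, i.1 = 0 ∨ ∃ j : Fin M.length, bB M M' i j = true ∧
      l.getD j 0 < l.getD i 0 := by
  simp only [chkO, List.all_eq_true, List.mem_range, Bool.or_eq_true, decide_eq_true_eq,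
    List.any_eq_true, Bool.and_eq_true]
  constructor
  · intro h i
    rcases h i.1 i.2 with h | ⟨j, hj, h⟩
    · exact Or.inl h
    · exact Or.inr ⟨⟨j, hj⟩, h⟩
  · intro h i hi
    rcases h ⟨i, hi⟩ with h | ⟨j, h⟩
    · exact Or.inl h
    · exact Or.inr ⟨j.1, j.2, h⟩

theorem hasPair_of_chk {M : List (List Bool)} {w : Cert} (h : chk (M, w) = true) :
    AntistrongStrong M := by
  obtain ⟨M', l₁, l₂, l₃, l₄⟩ := w
  simp only [chk, Bool.and_eq_true, decide_eq_true_eq] at h
  obtain ⟨h3, hL, hR, hI, hO⟩ := h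
  rw [chkL_iff] at hL
  rw [chkR_iff] at hR
  rw [chkI_iff] at hI
  rw [chkO_iff] at hO
  set r : Fin M.length := ⟨0, by omega⟩ with hr
  refine ⟨fun i j => aB M M' i j = true, fun i j => bB M M' i j = true, ?_, ?_, ?_, ?_, ?_⟩
  · intro i j hij
    simp only [aB, Bool.and_eq_true, Bool.not_eq_true', decide_eq_false_iff_not] at hij
    exact ⟨fun h => hij.1 (congrArg Fin.val h), hij.2.1⟩
  · intro i j hij
    simp only [bB, Bool.and_eq_true, Bool.not_eq_true', decide_eq_false_iff_not] at hij
    exact ⟨fun h => hij.1 (congrArg Fin.val h), hij.2.1⟩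
  · rintro i j ⟨h1, h2⟩
    simp only [aB, bB, Bool.and_eq_true, Bool.not_eq_true'] at h1 h2
    rw [h1.2.2] at h2
    simp at h2
  · have key : ∀ p, (BGraph fun i j : Fin M.length => aB M M' i j = true).Reachable
        (Sum.inl r) p := by
      intro p
      rw [SimpleGraph.reachable_iff_reflTransGen]
      refine reach_of_rank (ρ := Sum.elim (fun i : Fin M.length => l₁.getD i 0)
        (fun j : Fin M.length => l₂.getD j 0)) ?_ p
      rintro (i | j) hp
      · rcases hL i with h | ⟨j, h1, h2⟩
        · exact absurd (congrArg Sum.inl (Fin.ext h)) hp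
        · exact ⟨Sum.inr j, bGraph_adj_rl.2 h1, h2⟩
      · obtain ⟨i, h1, h2⟩ := hR j
        exact ⟨Sum.inl i, bGraph_adj_lr.2 h1, h2⟩
    exact antistrong_of_reachable (by rw [Fintype.card_fin]; exact h3)
      fun x y => (key _).symm.trans (key _)
  · have k1 : ∀ v, Relation.ReflTransGen (fun i j : Fin M.length => bB M M' i j = true) r v := by
      refine reach_of_rank (ρ := fun i : Fin M.length => l₃.getD i 0) ?_
      intro v hv
      rcases hI v with h | ⟨j, h1, h2⟩
      · exact absurd (Fin.ext h) hv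
      · exact ⟨j, h1, h2⟩
    have k2 : ∀ v, Relation.ReflTransGen (fun i j : Fin M.length => bB M M' i j = true) v r := by
      intro v
      rw [← Relation.reflTransGen_swap]
      refine reach_of_rank (ρ := fun i : Fin M.length => l₄.getD i 0) ?_ v
      intro v hv
      rcases hO v with h | ⟨j, h1, h2⟩
      · exact absurd (Fin.ext h) hv
      · exact ⟨j, h1, h2⟩
    exact fun x y => (k2 x).trans (k1 y)

theorem length_le_sz (M : List (List Bool)) : M.length ≤ sz M := by
  induction M with
  | nil => simp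
  | cons a M ih => simp only [List.length_cons, sz_list_cons]; have := sz_pos a; omega

theorem sz_ofFn_nat {n s : ℕ} (hn : n ≤ s) (g : Fin n → ℕ) (hg : ∀ i, g i < 2 * n) :
    sz (List.ofFn g) ≤ s * (8 * s + 2) + 1 := by
  have h1 := sz_le_length_mul (List.ofFn g) (8 * s + 1) (by
    intro x hx
    rw [List.mem_ofFn] at hx
    obtain ⟨i, rfl⟩ := hx
    refine (sz_nat_le _).trans ?_
    have h2 : (g i).size ≤ g i := by
      rw [Nat.size_le]
      exact Nat.lt_two_pow_self
    have := hg i
    omega)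
  rw [List.length_ofFn] at h1
  have h3 : n * (8 * s + 1 + 1) ≤ s * (8 * s + 2) := Nat.mul_le_mul hn le_rfl
  omega

theorem sz_ofFn_bool {n s : ℕ} (hn : n ≤ s) (g : Fin n → Fin n → Bool) :
    sz (List.ofFn fun i => List.ofFn fun j => g i j) ≤ s * (4 * s + 2) + 1 := by
  have h1 := sz_le_length_mul (List.ofFn fun i => List.ofFn fun j => g i j) (4 * s + 1) (by
    intro x hx
    rw [List.mem_ofFn] at hx
    obtain ⟨i, rfl⟩ := hx
    refine (sz_listBool_le _).trans ?_
    rw [List.length_ofFn]
    omega)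
  rw [List.length_ofFn] at h1
  have h3 : n * (4 * s + 1 + 1) ≤ s * (4 * s + 2) := Nat.mul_le_mul hn le_rfl
  omega

theorem entry_ofFn {n : ℕ} (g : Fin n → Fin n → Bool) (i j : Fin n) :
    entry (List.ofFn fun i => List.ofFn fun j => g i j) i j = g i j := by
  have h1 : (List.ofFn fun i => List.ofFn fun j => g i j).getD i.1 [] = List.ofFn fun j => g i j := by
    rw [List.getD_eq_getElem _ _ (by simp)]
    simp
  unfold entry
  rw [h1, List.getD_eq_getElem _ _ (by simp)]
  simp

theorem getD_ofFn {n : ℕ} (g : Fin n → ℕ) (i : Fin n) : (List.ofFn g).getD i 0 = g i := by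
  rw [List.getD_eq_getElem _ _ (by simp)]
  simp

open Classical in
theorem chk_of_hasPair {M : List (List Bool)} (h : AntistrongStrong M) : ∃ w : Cert,
    sz w ≤ 4 * (sz M * (8 * sz M + 2) + 1) + (sz M * (4 * sz M + 2) + 1) + 4 ∧
      chk (M, w) = true := by
  obtain ⟨A₁, A₂, h1, h2, hd, hA1, hA2⟩ := h
  have h3 : 3 ≤ M.length := by
    have := hA1.1
    rwa [Fintype.card_fin] at this
  set r : Fin M.length := ⟨0, by omega⟩ with hr
  obtain ⟨ρ, hρ1, hρ2⟩ := exists_rank (R := (BGraph A₁).Adj) (r := Sum.inl r) (fun p => by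
    rw [← SimpleGraph.reachable_iff_reflTransGen]; exact hA1.reachable r p)
  obtain ⟨ρ₃, hρ₃1, hρ₃2⟩ := exists_rank (R := A₂) (r := r) (fun p => hA2 r p)
  obtain ⟨ρ₄, hρ₄1, hρ₄2⟩ := exists_rank (R := Function.swap A₂) (r := r) (fun p => by
    rw [Relation.reflTransGen_swap]; exact hA2 p r)
  have hcard : Fintype.card (Fin M.length ⊕ Fin M.length) = 2 * M.length := by
    rw [Fintype.card_sum, Fintype.card_fin]; omega
  rw [hcard] at hρ1
  rw [Fintype.card_fin] at hρ₃1 hρ₄1
  have hn := length_le_sz M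
  refine ⟨(List.ofFn fun i => List.ofFn fun j => decide (A₁ i j),
    List.ofFn fun i => ρ (Sum.inl i), List.ofFn fun i => ρ (Sum.inr i), List.ofFn ρ₃,
    List.ofFn ρ₄), ?_, ?_⟩
  · have b0 := sz_ofFn_bool hn (fun i j => decide (A₁ i j))
    have b1 := sz_ofFn_nat hn (fun i => ρ (Sum.inl i)) (fun i => hρ1 _)
    have b2 := sz_ofFn_nat hn (fun i => ρ (Sum.inr i)) (fun i => hρ1 _)
    have b3 := sz_ofFn_nat hn ρ₃ (fun i => by have := hρ₃1 i; omega)
    have b4 := sz_ofFn_nat hn ρ₄ (fun i => by have := hρ₄1 i; omega)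
    simp only [sz_pair]
    omega
  · have ha : ∀ i j, A₁ i j → aB M (List.ofFn fun i => List.ofFn fun j => decide (A₁ i j)) i j =
        true := by
      intro i j hij
      unfold aB
      rw [entry_ofFn]
      have := h1 i j hij
      have hne : i.1 ≠ j.1 := fun hc => this.1 (Fin.ext hc)
      simp [hne, this.2, hij]
    have hb : ∀ i j, A₂ i j → bB M (List.ofFn fun i => List.ofFn fun j => decide (A₁ i j)) i j =
        true := by
      intro i j hij
      unfold bB
      rw [entry_ofFn]
      have := h2 i j hij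
      have hne : i.1 ≠ j.1 := fun hc => this.1 (Fin.ext hc)
      have hn : ¬ A₁ i j := fun hc => hd i j ⟨hc, hij⟩
      simp [hne, this.2, hn]
    simp only [chk, Bool.and_eq_true, decide_eq_true_eq, chkL_iff, chkR_iff, chkI_iff, chkO_iff,
      getD_ofFn]
    refine ⟨h3, ?_, ?_, ?_, ?_⟩
    · intro i
      by_cases hi : i.1 = 0
      · exact Or.inl hi
      · right
        obtain ⟨u, hu1, hu2⟩ := hρ2 (Sum.inl i) (by
          intro hc
          exact hi (congrArg Fin.val (Sum.inl_injective hc)))
        rcases u with j | j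
        · exact absurd hu1 bGraph_adj_ll
        · exact ⟨j, ha _ _ (bGraph_adj_rl.1 hu1), hu2⟩
    · intro j
      obtain ⟨u, hu1, hu2⟩ := hρ2 (Sum.inr j) (by simp)
      rcases u with i | i
      · exact ⟨i, ha _ _ (bGraph_adj_lr.1 hu1), hu2⟩
      · exact absurd hu1 bGraph_adj_rr
    · intro j
      by_cases hi : j.1 = 0
      · exact Or.inl hi
      · right
        obtain ⟨u, hu1, hu2⟩ := hρ₃2 j (fun hc => hi (congrArg Fin.val hc))
        exact ⟨u, hb _ _ hu1, hu2⟩
    · intro j
      by_cases hi : j.1 = 0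
      · exact Or.inl hi
      · right
        obtain ⟨u, hu1, hu2⟩ := hρ₄2 j (fun hc => hi (congrArg Fin.val hc))
        exact ⟨u, hb _ _ hu1, hu2⟩

theorem inNPP_AntistrongStrong : InNPP AntistrongStrong := by
  refine inNPP_of (β := Cert) chk_poly
    (Polynomial.C 4 * (Polynomial.X * (Polynomial.C 8 * Polynomial.X + Polynomial.C 2) +
      Polynomial.C 1) + (Polynomial.X * (Polynomial.C 4 * Polynomial.X + Polynomial.C 2) +
      Polynomial.C 1) + Polynomial.C 4) fun M => ?_
  constructor
  · intro h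
    obtain ⟨w, hw, hc⟩ := chk_of_hasPair h
    refine ⟨w, ?_, hc⟩
    simpa using hw
  · rintro ⟨w, _, h⟩
    exact hasPair_of_chk h

end Helper240AS
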