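import Pool.Agent.helper240_AS.Comp

/-!
# The reduction from 3SAT: the equivalence
-/

set_option autoImplicit false

namespace Helper240AS

open Pool.Agent.NPC Pool.Agent.H622R2

/-- The arcs on the labels. -/
def labArc (φ : List Cl) (u v : {x // x ∈ vs φ}) : Prop := u ≠ v ∧ arcB φ u.1 v.1 = true

variable {φ : List Cl}

theorem mem0 : ((0, 0) : L) ∈ vs φ := mem_vs.2 (by simp)
theorem mem1 : ((1, 0) : L) ∈ vs φ := mem_vs.2 (by simp)
theorem mem2 : ((2, 0) : L) ∈ vs φ := mem_vs.2 (by simp)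
theorem mem3 : ((3, 0) : L) ∈ vs φ := mem_vs.2 (by simp)
theorem mem4 : ((4, 0) : L) ∈ vs φ := mem_vs.2 (by simp)

theorem arcB_iff {x y : L} : arcB φ x y = true ↔ (x.1 = 0 ∧ y.1 ≠ 0) ∨
    (x.1 = 1 ∧ (y.1 = 0 ∨ y.1 = 2 ∨ y.1 = 3 ∨ y.1 = 4)) ∨
    (2 ≤ x.1 ∧ (y = o1 φ x ∨ y = o2 φ x)) := by
  simp [arcB]

theorem eq_of_lt_five {x : L} (hx : x ∈ vs φ) (h : x.1 < 5) : x = (x.1, 0) := by
  obtain ⟨p, q⟩ := x
  have := mem_vs.1 hx
  simp only at this h ⊢
  congr 1
  omega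

theorem two_le_of_ne {v : {x // x ∈ vs φ}} (h0 : v ≠ ⟨(0, 0), mem0⟩) (h1 : v ≠ ⟨(1, 0), mem1⟩) :
    2 ≤ v.1.1 := by
  by_contra hc
  have h2 := eq_of_lt_five v.2 (by omega)
  have : v.1.1 = 0 ∨ v.1.1 = 1 := by omega
  rcases this with h | h
  · rw [h] at h2; exact h0 (Subtype.ext h2)
  · rw [h] at h2; exact h1 (Subtype.ext h2)

theorem sound (h : HasPair (labArc φ)) : Sat3V ℕ φ := by
  obtain ⟨A₁, A₂, h1, h2, hd, hA1, hA2⟩ := h
  obtain ⟨f, hbij, harc, hfa, hfb, hcl⟩ := hub_sound (A := labArc φ)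
    (a := ⟨(0, 0), mem0⟩) (b := ⟨(1, 0), mem1⟩) (c := ⟨(2, 0), mem2⟩) (s := ⟨(4, 0), mem4⟩)
    (t := ⟨(3, 0), mem3⟩) (by simp) h1 h2 hd hA1 hA2 (by
      intro v hva hvb
      have h2 := two_le_of_ne hva hvb
      refine ⟨⟨o1 φ v.1, (o_mem v.2 h2).1⟩, ⟨o2 φ v.1, (o_mem v.2 h2).2⟩, ?_⟩
      rintro w ⟨_, hw⟩
      rcases arcB_iff.1 hw with h | h | h
      · omega
      · omega
      · rcases h.2 with h | h
        · left; exact Subtype.ext h
        · right; exact Subtype.ext h) (by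
      rintro ⟨x, hx⟩ ⟨_, hx1⟩ ⟨_, hx2⟩
      rw [arcB_iff] at hx1 hx2
      simp only at hx1 hx2
      have hx3 : x.1 = 2 ∨ x.1 = 3 ∨ x.1 = 4 := by omega
      have h3 := eq_of_lt_five hx (by omega)
      rcases hx3 with h | h | h
      · rw [h] at h3; left; exact Subtype.ext h3
      · rw [h] at h3; right; right; exact Subtype.ext h3
      · rw [h] at h3; right; left; exact Subtype.ext h3)
  classical
  set F : L → L := fun x => if h : x ∈ vs φ then (f ⟨x, h⟩).1 else x with hF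
  have hFx : ∀ x (hx : x ∈ vs φ), F x = (f ⟨x, hx⟩).1 := fun x hx => by
    simp only [hF]; rw [dif_pos hx]
  refine Cyc.sat (F := F) ⟨?_, ?_, ?_, ?_, ?_, ?_, ?_⟩
  · intro x hx; rw [hFx x hx]; exact (f ⟨x, hx⟩).2
  · intro x hx y hy hxy
    rw [hFx x hx, hFx y hy] at hxy
    have := hbij.1 (Subtype.ext hxy)
    exact congrArg Subtype.val this
  · intro y hy
    obtain ⟨x, hx⟩ := hbij.2 ⟨y, hy⟩
    refine ⟨x.1, x.2, ?_⟩
    rw [hFx x.1 x.2]
    exact congrArg Subtype.val hx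
  · intro x hx hx2
    rw [hFx x hx]
    obtain ⟨_, ha⟩ := harc ⟨x, hx⟩
    rcases arcB_iff.1 ha with h | h | h
    · simp only at h; omega
    · simp only at h; omega
    · exact h.2
  · rw [hFx _ mem0]
    rcases hfa with h | h | h <;> rw [h] <;> simp
  · rw [hFx _ mem1]
    rcases hfb with h | h | h <;> rw [h] <;> simp
  · rintro S ⟨x, hx, hSx⟩ hS y hy
    exact hcl (fun v => S v.1) ⟨⟨x, hx⟩, hSx⟩ (fun v hv => by
      have := hS v.1 v.2 hv
      rw [hFx v.1 v.2] at this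
      exact this) ⟨y, hy⟩

theorem complete (hB : Bdd φ) (h : Sat3V ℕ φ) : HasPair (labArc φ) := by
  obtain ⟨τ, pk, hg⟩ := exists_good hB h
  set f : {x // x ∈ vs φ} → {x // x ∈ vs φ} := fun x => ⟨FF φ τ pk x.1, FF_mem x.2⟩ with hf
  have hsurj : Function.Surjective f := by
    rintro ⟨y, hy⟩
    obtain ⟨x, hx, hxy⟩ := FF_surj hg hy
    exact ⟨⟨x, hx⟩, Subtype.ext hxy⟩
  have hbij := Finite.surjective_iff_bijective.1 hsurj
  have hhub : ∀ x : {x // x ∈ vs φ},
      Relation.ReflTransGen (fun u w => w = f u) x ⟨(0, 0), mem0⟩ := by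
    rintro ⟨x, hx⟩
    have h1 := reach_hub hg x hx
    revert hx
    induction h1 using Relation.ReflTransGen.head_induction_on with
    | refl => intro hx; exact Relation.ReflTransGen.refl
    | head h1 _ ih =>
      intro hx
      obtain ⟨h2, rfl⟩ := h1
      exact Relation.ReflTransGen.head rfl (ih (FF_mem hx))
  set σ : Equiv.Perm {x // x ∈ vs φ} := Equiv.ofBijective f hbij with hσ
  have hsame : ∀ x, σ.SameCycle x ⟨(0, 0), mem0⟩ := by
    intro x
    induction hhub x using Relation.ReflTransGen.head_induction_on with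
    | refl => exact Equiv.Perm.SameCycle.refl _ _
    | head h1 _ ih =>
      subst h1
      exact (Equiv.Perm.sameCycle_apply_left (f := σ)).1 ih
  have hreach : ∀ x y, Relation.ReflTransGen (fun u w => w = f u) x y := by
    intro x y
    obtain ⟨i, hi⟩ := ((hsame x).trans (hsame y).symm).exists_nat_pow_eq
    rw [← hi]
    clear hi
    induction i with
    | zero => exact Relation.ReflTransGen.refl
    | succ i ih =>
      rw [pow_succ', Equiv.Perm.mul_apply]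
      exact ih.tail rfl
  have hcard : 3 ≤ Fintype.card {x // x ∈ vs φ} := by
    have : 2 < Fintype.card {x // x ∈ vs φ} := Fintype.two_lt_card_iff.2
      ⟨⟨(0, 0), mem0⟩, ⟨(1, 0), mem1⟩, ⟨(2, 0), mem2⟩, by simp, by simp, by simp⟩
    omega
  refine hub_complete (a := ⟨(0, 0), mem0⟩) (b := ⟨(1, 0), mem1⟩) (c := ⟨(2, 0), mem2⟩)
    (s := ⟨(4, 0), mem4⟩) (t := ⟨(3, 0), mem3⟩) (f := f) hcard (by simp) (by simp) (by simp)
    (by simp) (by simp) ?_ ?_ ?_ ?_ ?_ ?_ ?_ hreach ?_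
  · intro w hw
    refine ⟨hw.symm, arcB_iff.2 (Or.inl ⟨rfl, fun hc => hw ?_⟩)⟩
    have := eq_of_lt_five w.2 (by omega)
    rw [hc] at this
    exact Subtype.ext this
  · exact ⟨by simp, arcB_iff.2 (Or.inr (Or.inl ⟨rfl, Or.inl rfl⟩))⟩
  · exact ⟨by simp, arcB_iff.2 (Or.inr (Or.inl ⟨rfl, Or.inr (Or.inr (Or.inr rfl))⟩))⟩
  · exact ⟨by simp, arcB_iff.2 (Or.inr (Or.inl ⟨rfl, Or.inr (Or.inr (Or.inl rfl))⟩))⟩
  · intro v
    by_cases h2 : 2 ≤ v.1.1
    · have h3 := o_ne v.2 h2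
      have h4 := FF_out (τ := τ) (pk := pk) v.2 h2
      refine ⟨fun hc => ?_, arcB_iff.2 (Or.inr (Or.inr ⟨h2, h4⟩))⟩
      have hc' : v.1 = FF φ τ pk v.1 := congrArg Subtype.val hc
      rcases h4 with h | h
      · exact h3.2.1 (h.symm.trans hc'.symm)
      · exact h3.2.2 (h.symm.trans hc'.symm)
    · have h3 := eq_of_lt_five v.2 (by omega)
      have h4 : v.1.1 = 0 ∨ v.1.1 = 1 := by omega
      rcases h4 with h | h
      · rw [h] at h3
        have : v = ⟨(0, 0), mem0⟩ := Subtype.ext h3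
        subst this
        refine ⟨fun hc => ?_, arcB_iff.2 (Or.inl ⟨rfl, ?_⟩)⟩
        · have := congrArg Subtype.val hc
          simp only [hf] at this
          rw [FF0] at this
          simp at this
        · simp only [hf]; rw [FF0]; simp
      · rw [h] at h3
        have : v = ⟨(1, 0), mem1⟩ := Subtype.ext h3
        subst this
        refine ⟨fun hc => ?_, arcB_iff.2 (Or.inr (Or.inl ⟨rfl, ?_⟩))⟩
        · have := congrArg Subtype.val hc
          simp only [hf] at this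
          rw [FF1] at this
          simp at this
        · simp only [hf]; rw [FF1]; simp
  · exact Subtype.ext (FF0 (φ := φ) (τ := τ) (pk := pk) 0)
  · exact Subtype.ext (FF1 (φ := φ) (τ := τ) (pk := pk) 0)
  · intro v hva hvb
    have h2 := two_le_of_ne hva hvb
    have h3 := o_ne v.2 h2
    rcases FF_out (τ := τ) (pk := pk) v.2 h2 with h | h
    · refine ⟨⟨o2 φ v.1, (o_mem v.2 h2).2⟩, ⟨fun hc => h3.2.2 (congrArg Subtype.val hc).symm,
        arcB_iff.2 (Or.inr (Or.inr ⟨h2, Or.inr rfl⟩))⟩, fun hc => ?_⟩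
      have hc' : o2 φ v.1 = FF φ τ pk v.1 := congrArg Subtype.val hc
      exact h3.1 (h.symm.trans hc'.symm)
    · refine ⟨⟨o1 φ v.1, (o_mem v.2 h2).1⟩, ⟨fun hc => h3.2.1 (congrArg Subtype.val hc).symm,
        arcB_iff.2 (Or.inr (Or.inr ⟨h2, Or.inl rfl⟩))⟩, fun hc => ?_⟩
      have hc' : o1 φ v.1 = FF φ τ pk v.1 := congrArg Subtype.val hc
      exact h3.1 (hc'.trans h)

end Helper240AS
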