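import Pool.Agent.helper240_AS.Core
import Pool.Agent.H622R2.MatGraph
import Pool.Agent.NPC.Sat

/-!
# The reduction from 3SAT: definitions and soundness
-/

set_option autoImplicit false

namespace Helper240AS

open Pool.Agent.NPC Pool.Agent.H622R2

/-- clauses with three literals -/
abbrev Cl : Type := Lit ℕ × Lit ℕ × Lit ℕ

/-- labels of the vertices -/
abbrev L : Type := ℕ × ℕ

/-- the list of all literals -/
def flatL (φ : List Cl) : List (Lit ℕ) := φ.flatMap (fun c => [c.1, c.2.1, c.2.2])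

/-- the literal number `k` -/
def litAt (φ : List Cl) (k : ℕ) : Lit ℕ := (flatL φ).getD k (false, 0)

/-- all variables are smaller than the number of literals -/
def Bdd (φ : List Cl) : Prop := ∀ k < 3 * φ.length, (litAt φ k).2 < 3 * φ.length

/-- the cyclic successor inside a clause -/
def nx (e : ℕ) : ℕ := 3 * (e / 3) + (e + 1) % 3

/-- the entry of the clause part at position `e` -/
def K (φ : List Cl) (e : ℕ) : L := if e < 3 * φ.length then (6, e) else (3, 0)

/-- the vertex of variable `i` -/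
def X (φ : List Cl) (i : ℕ) : L := if i < 3 * φ.length + 1 then (5, i) else K φ 0

/-- the first occurrence of the literal `l` at a position at least `k` -/
def nxt (φ : List Cl) (l : Lit ℕ) (k : ℕ) : Option ℕ :=
  ((List.range (3 * φ.length)).filter (fun e => decide (k ≤ e) && decide (litAt φ e = l))).head?

/-- the next vertex on the branch of the literal `l` -/
def tgt (φ : List Cl) (l : Lit ℕ) (k : ℕ) : L :=
  (nxt φ l k).elim (X φ (l.2 + 1)) (fun e => (10, e))

/-- the first out-neighbour -/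
def o1 (φ : List Cl) (x : L) : L :=
  if x.1 = 2 then (0, 0) else
  if x.1 = 3 then (1, 0) else
  if x.1 = 4 then (5, 0) else
  if x.1 = 5 then tgt φ (true, x.2) 0 else
  if x.1 = 6 then (8, x.2) else
  if x.1 = 7 then (7, nx x.2) else
  if x.1 = 8 then (9, x.2) else
  if x.1 = 9 then K φ (x.2 + 1) else
  if x.1 = 10 then (11, x.2) else
  tgt φ (litAt φ x.2) (x.2 + 1)

/-- the second out-neighbour -/
def o2 (φ : List Cl) (x : L) : L :=
  if x.1 = 2 then (4, 0) else
  if x.1 = 3 then (4, 0) else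
  if x.1 = 4 then (3, 0) else
  if x.1 = 5 then
    (if tgt φ (false, x.2) 0 = tgt φ (true, x.2) 0 then (4, 0) else tgt φ (false, x.2) 0) else
  if x.1 = 6 then (7, x.2) else
  if x.1 = 7 then K φ (nx x.2 + 1) else
  if x.1 = 8 then (10, x.2) else
  if x.1 = 9 then (11, x.2) else
  if x.1 = 10 then (8, x.2) else
  (9, x.2)

/-- the vertices -/
def vs (φ : List Cl) : List L :=
  [(0, 0), (1, 0), (2, 0), (3, 0), (4, 0)] ++
  ((List.range (3 * φ.length + 1)).map (fun i => (5, i)) ++
  (List.range (3 * φ.length)).flatMap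
    (fun e => [(6, e), (7, e), (8, e), (9, e), (10, e), (11, e)]))

/-- the arcs -/
def arcB (φ : List Cl) (x y : L) : Bool :=
  (decide (x.1 = 0) && !decide (y.1 = 0)) ||
  ((decide (x.1 = 1) && (decide (y.1 = 0) || (decide (y.1 = 2) ||
    (decide (y.1 = 3) || decide (y.1 = 4))))) ||
  (decide (2 ≤ x.1) && (decide (y = o1 φ x) || decide (y = o2 φ x))))

theorem mem_vs {φ : List Cl} {x : L} : x ∈ vs φ ↔
    (x.1 < 5 ∧ x.2 = 0) ∨ (x.1 = 5 ∧ x.2 < 3 * φ.length + 1) ∨
      (6 ≤ x.1 ∧ x.1 < 12 ∧ x.2 < 3 * φ.length) := by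
  obtain ⟨i, r⟩ := x
  simp only [vs, List.mem_append, List.mem_flatMap, List.mem_range, List.mem_cons, List.mem_map,
    List.not_mem_nil, or_false, Prod.mk.injEq]
  constructor
  · rintro (h | ⟨k, hk, h⟩ | ⟨j, hj, h⟩) <;> omega
  · rintro (h | h | h)
    · left; omega
    · right; left; exact ⟨r, h.2, h.1.symm, rfl⟩
    · right; right; exact ⟨r, h.2.2, by omega⟩

theorem nodup_vs (φ : List Cl) : (vs φ).Nodup := by
  unfold vs
  refine List.Nodup.append (by simp) (List.Nodup.append ?_ ?_ ?_) ?_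
  · refine List.nodup_range.map ?_
    intro a b h
    simpa using h
  · rw [List.nodup_flatMap]
    refine ⟨fun e _ => by simp, ?_⟩
    refine List.Pairwise.imp_of_mem (R := fun a b => a ≠ b) ?_ List.nodup_range
    intro a b _ _ hab x hx hy
    simp only [List.mem_cons, List.not_mem_nil, or_false] at hx hy
    have h1 : x.2 = a := by rcases hx with h | h | h | h | h | h <;> rw [h]
    have h2 : x.2 = b := by rcases hy with h | h | h | h | h | h <;> rw [h]
    exact hab (h1.symm.trans h2)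
  · intro x h1 h2
    simp only [List.mem_map, List.mem_flatMap, List.mem_cons, List.not_mem_nil, or_false] at h1 h2
    obtain ⟨i, -, rfl⟩ := h1
    obtain ⟨e, -, h2⟩ := h2
    simp only [Prod.mk.injEq] at h2
    omega
  · intro x h1 h2
    simp only [List.mem_append, List.mem_map, List.mem_flatMap, List.mem_cons, List.not_mem_nil,
      or_false] at h1 h2
    have h3 : x.1 < 5 := by rcases h1 with h | h | h | h | h <;> rw [h] <;> simp
    rcases h2 with ⟨i, -, rfl⟩ | ⟨e, -, h2⟩
    · simp at h3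
    · rcases h2 with h | h | h | h | h | h <;> rw [h] at h3 <;> simp at h3

theorem nxt_some {φ : List Cl} {l : Lit ℕ} {k e : ℕ} : nxt φ l k = some e ↔
    k ≤ e ∧ litAt φ e = l ∧ e < 3 * φ.length ∧ ∀ j < e, ¬ (k ≤ j ∧ litAt φ j = l) := by
  unfold nxt
  rw [List.head?_filter, List.find?_range_eq_some]
  simp only [Bool.and_eq_true, decide_eq_true_eq, List.mem_range, Bool.not_eq_true',
    Bool.and_eq_false_iff, decide_eq_false_iff_not, not_and_or, and_assoc]

theorem nxt_none {φ : List Cl} {l : Lit ℕ} {k : ℕ} : nxt φ l k = none ↔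
    ∀ j < 3 * φ.length, ¬ (k ≤ j ∧ litAt φ j = l) := by
  unfold nxt
  rw [List.head?_filter, List.find?_range_eq_none]
  simp only [Bool.not_eq_true', Bool.and_eq_false_iff, decide_eq_false_iff_not, not_and_or]

theorem K_cases (φ : List Cl) (e : ℕ) :
    (e < 3 * φ.length ∧ K φ e = (6, e)) ∨ (3 * φ.length ≤ e ∧ K φ e = (3, 0)) := by
  unfold K
  by_cases h : e < 3 * φ.length
  · exact Or.inl ⟨h, if_pos h⟩
  · exact Or.inr ⟨not_lt.1 h, if_neg h⟩

theorem X_cases (φ : List Cl) (i : ℕ) :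
    (i < 3 * φ.length + 1 ∧ X φ i = (5, i)) ∨ (3 * φ.length + 1 ≤ i ∧ X φ i = K φ 0) := by
  unfold X
  by_cases h : i < 3 * φ.length + 1
  · exact Or.inl ⟨h, if_pos h⟩
  · exact Or.inr ⟨not_lt.1 h, if_neg h⟩

theorem tgt_cases (φ : List Cl) (l : Lit ℕ) (k : ℕ) :
    (∃ e, k ≤ e ∧ e < 3 * φ.length ∧ litAt φ e = l ∧
      (∀ j < e, ¬ (k ≤ j ∧ litAt φ j = l)) ∧ nxt φ l k = some e ∧ tgt φ l k = (10, e)) ∨
    ((∀ j < 3 * φ.length, ¬ (k ≤ j ∧ litAt φ j = l)) ∧
      ((l.2 + 1 < 3 * φ.length + 1 ∧ tgt φ l k = (5, l.2 + 1)) ∨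
      (3 * φ.length + 1 ≤ l.2 + 1 ∧ 0 < 3 * φ.length ∧ tgt φ l k = (6, 0)) ∨
      (3 * φ.length + 1 ≤ l.2 + 1 ∧ 3 * φ.length = 0 ∧ tgt φ l k = (3, 0)))) := by
  cases h : nxt φ l k with
  | some e =>
    left
    obtain ⟨h1, h2, h3, h4⟩ := nxt_some.1 h
    exact ⟨e, h1, h3, h2, h4, rfl, by simp [tgt, h]⟩
  | none =>
    right
    refine ⟨nxt_none.1 h, ?_⟩
    have h1 : tgt φ l k = X φ (l.2 + 1) := by simp [tgt, h]
    rw [h1]
    rcases X_cases φ (l.2 + 1) with ⟨h2, h3⟩ | ⟨h2, h3⟩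
    · left; exact ⟨h2, h3⟩
    · right
      rcases K_cases φ 0 with ⟨h4, h5⟩ | ⟨h4, h5⟩
      · left; exact ⟨h2, h4, h3.trans h5⟩
      · right; exact ⟨h2, by omega, h3.trans h5⟩

/-- The type of a target. -/
theorem tgt_type (φ : List Cl) (l : Lit ℕ) (k : ℕ) :
    (tgt φ l k).1 = 10 ∨ (tgt φ l k).1 = 5 ∨ (tgt φ l k).1 = 6 ∨ (tgt φ l k).1 = 3 := by
  rcases tgt_cases φ l k with ⟨e, -, -, -, -, -, h⟩ | ⟨-, ⟨-, h⟩ | ⟨-, -, h⟩ | ⟨-, -, h⟩⟩ <;>
    rw [h] <;> simp

theorem tgt_eq_ten {φ : List Cl} {l : Lit ℕ} {k e : ℕ} (h : tgt φ l k = (10, e)) :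
    nxt φ l k = some e := by
  rcases tgt_cases φ l k with ⟨e', -, -, -, -, h2, h1⟩ | ⟨-, ⟨-, h1⟩ | ⟨-, -, h1⟩ | ⟨-, -, h1⟩⟩ <;>
    rw [h1] at h <;> simp only [Prod.mk.injEq] at h
  · rw [← h.2]; exact h2
  · omega
  · omega
  · omega

theorem K_type (φ : List Cl) (e : ℕ) : (K φ e).1 = 6 ∨ (K φ e).1 = 3 := by
  rcases K_cases φ e with ⟨-, h⟩ | ⟨-, h⟩ <;> rw [h] <;> simp

/-- The clause positions. -/
theorem litAt_eq {φ : List Cl} {j : ℕ} {c : Cl} (h : φ[j]? = some c) :
    litAt φ (3 * j) = c.1 ∧ litAt φ (3 * j + 1) = c.2.1 ∧ litAt φ (3 * j + 2) = c.2.2 := by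
  have key : ∀ (φ : List Cl) (j : ℕ) (c : Cl), φ[j]? = some c → ∀ p < 3, (flatL φ)[3 * j + p]? =
      ([c.1, c.2.1, c.2.2] : List (Lit ℕ))[p]? := by
    intro φ
    induction φ with
    | nil => intro j c h; simp at h
    | cons d φ ih =>
      intro j c h p hp
      cases j with
      | zero =>
        simp only [List.getElem?_cons_zero, Option.some.injEq] at h
        subst h
        unfold flatL
        rw [List.flatMap_cons, List.getElem?_append_left (by simpa using hp)]
        simp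
      | succ j =>
        rw [List.getElem?_cons_succ] at h
        have h2 := ih j c h p hp
        unfold flatL at h2 ⊢
        rw [List.flatMap_cons, List.getElem?_append_right (by simp; omega)]
        have : 3 * (j + 1) + p - [d.1, d.2.1, d.2.2].length = 3 * j + p := by simp; omega
        rw [this, h2]
  refine ⟨?_, ?_, ?_⟩
  · have := key φ j c h 0 (by omega)
    rw [add_zero] at this
    simp [litAt, List.getD_eq_getElem?_getD, this]
  · have := key φ j c h 1 (by omega)
    simp [litAt, List.getD_eq_getElem?_getD, this]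
  · have := key φ j c h 2 (by omega)
    simp [litAt, List.getD_eq_getElem?_getD, this]

/-! ### Soundness -/

/-- A cyclic arrangement of the labels along arcs. -/
structure Cyc (φ : List Cl) (F : L → L) : Prop where
  mem : ∀ x ∈ vs φ, F x ∈ vs φ
  inj : ∀ x ∈ vs φ, ∀ y ∈ vs φ, F x = F y → x = y
  surj : ∀ y ∈ vs φ, ∃ x ∈ vs φ, F x = y
  out : ∀ x ∈ vs φ, 2 ≤ x.1 → F x = o1 φ x ∨ F x = o2 φ x
  ha : (F (0, 0)).1 < 5
  hb : (F (1, 0)).1 < 5
  cl : ∀ S : L → Prop, (∃ x ∈ vs φ, S x) → (∀ x ∈ vs φ, S x → S (F x)) → ∀ y ∈ vs φ, S y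

theorem Cyc.pred {φ : List Cl} {F : L → L} (h : Cyc φ F) {y : L} (hy : y ∈ vs φ) (h5 : 5 ≤ y.1) :
    ∃ x ∈ vs φ, 2 ≤ x.1 ∧ F x = y ∧ (y = o1 φ x ∨ y = o2 φ x) := by
  obtain ⟨x, hx, hxy⟩ := h.surj y hy
  have h2 : 2 ≤ x.1 := by
    by_contra hc
    have hx2 : x.2 = 0 := by rcases mem_vs.1 hx with h | h | h <;> omega
    have : x = (0, 0) ∨ x = (1, 0) := by
      obtain ⟨p, q⟩ := x
      simp only [Prod.mk.injEq] at hx2 hc ⊢
      omega
    rcases this with rfl | rfl
    · have := h.ha; rw [hxy] at this; omega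
    · have := h.hb; rw [hxy] at this; omega
  refine ⟨x, hx, h2, hxy, ?_⟩
  rcases h.out x hx h2 with h1 | h1
  · left; rw [← hxy, h1]
  · right; rw [← hxy, h1]

theorem lt_twelve {φ : List Cl} {x : L} (h : x ∈ vs φ) : x.1 < 12 := by
  rcases mem_vs.1 h with h | h | h <;> omega

theorem Cyc.pred8 {φ : List Cl} {F : L → L} (h : Cyc φ F) {e : ℕ} (he : e < 3 * φ.length) :
    F (6, e) = (8, e) ∨ F (10, e) = (8, e) := by
  obtain ⟨⟨p, q⟩, hx, h2, hF, ho⟩ := h.pred (y := (8, e))
    (mem_vs.2 (Or.inr (Or.inr ⟨by simp, by simp, he⟩))) (by simp)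
  have h12 := lt_twelve hx
  simp only at h2 h12
  have ht := tgt_type φ (true, q) 0
  have hf := tgt_type φ (false, q) 0
  have hl := tgt_type φ (litAt φ q) (q + 1)
  have hk := K_type φ (q + 1)
  have hk' := K_type φ (nx q + 1)
  interval_cases p <;> simp only [o1, o2] at ho <;> norm_num at ho
  · exfalso
    rcases ho with ho | ho
    · rw [← ho] at ht; simp at ht
    · split_ifs at ho
      · simp at ho
      · rw [← ho] at hf; simp at hf
  · left; rw [ho]; rw [ho] at hF; exact hF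
  · exfalso; rw [← ho] at hk'; simp at hk'
  · exfalso; rw [← ho] at hk; simp at hk
  · right; rw [ho]; rw [ho] at hF; exact hF
  · exfalso; rw [← ho] at hl; simp at hl

theorem Cyc.pred9 {φ : List Cl} {F : L → L} (h : Cyc φ F) {e : ℕ} (he : e < 3 * φ.length) :
    F (8, e) = (9, e) ∨ F (11, e) = (9, e) := by
  obtain ⟨⟨p, q⟩, hx, h2, hF, ho⟩ := h.pred (y := (9, e))
    (mem_vs.2 (Or.inr (Or.inr ⟨by simp, by simp, he⟩))) (by simp)
  have h12 := lt_twelve hx
  simp only at h2 h12
  have ht := tgt_type φ (true, q) 0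
  have hf := tgt_type φ (false, q) 0
  have hl := tgt_type φ (litAt φ q) (q + 1)
  have hk := K_type φ (q + 1)
  have hk' := K_type φ (nx q + 1)
  interval_cases p <;> simp only [o1, o2] at ho <;> norm_num at ho
  · exfalso
    rcases ho with ho | ho
    · rw [← ho] at ht; simp at ht
    · split_ifs at ho
      · simp at ho
      · rw [← ho] at hf; simp at hf
  · exfalso; rw [← ho] at hk'; simp at hk'
  · left; rw [ho]; rw [ho] at hF; exact hF
  · exfalso; rw [← ho] at hk; simp at hk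
  · rcases ho with ho | ho
    · exfalso; rw [← ho] at hl; simp at hl
    · right; rw [ho]; rw [ho] at hF; exact hF

theorem Cyc.pred11 {φ : List Cl} {F : L → L} (h : Cyc φ F) {e : ℕ} (he : e < 3 * φ.length) :
    F (9, e) = (11, e) ∨ F (10, e) = (11, e) := by
  obtain ⟨⟨p, q⟩, hx, h2, hF, ho⟩ := h.pred (y := (11, e))
    (mem_vs.2 (Or.inr (Or.inr ⟨by simp, by simp, he⟩))) (by simp)
  have h12 := lt_twelve hx
  simp only at h2 h12
  have ht := tgt_type φ (true, q) 0
  have hf := tgt_type φ (false, q) 0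
  have hl := tgt_type φ (litAt φ q) (q + 1)
  have hk := K_type φ (q + 1)
  have hk' := K_type φ (nx q + 1)
  interval_cases p <;> simp only [o1, o2] at ho <;> norm_num at ho
  · exfalso
    rcases ho with ho | ho
    · rw [← ho] at ht; simp at ht
    · split_ifs at ho
      · simp at ho
      · rw [← ho] at hf; simp at hf
  · exfalso; rw [← ho] at hk'; simp at hk'
  · rcases ho with ho | ho
    · exfalso; rw [← ho] at hk; simp at hk
    · left; rw [ho]; rw [ho] at hF; exact hF
  · right; rw [ho]; rw [ho] at hF; exact hF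
  · exfalso; rw [← ho] at hl; simp at hl

theorem Cyc.pred7 {φ : List Cl} {F : L → L} (h : Cyc φ F) {e : ℕ} (he : e < 3 * φ.length) :
    F (6, e) = (7, e) ∨ ∃ e' < 3 * φ.length, nx e' = e ∧ F (7, e') = (7, e) := by
  obtain ⟨⟨p, q⟩, hx, h2, hF, ho⟩ := h.pred (y := (7, e))
    (mem_vs.2 (Or.inr (Or.inr ⟨by simp, by simp, he⟩))) (by simp)
  have h12 := lt_twelve hx
  simp only at h2 h12
  have ht := tgt_type φ (true, q) 0
  have hf := tgt_type φ (false, q) 0
  have hl := tgt_type φ (litAt φ q) (q + 1)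
  have hk := K_type φ (q + 1)
  have hk' := K_type φ (nx q + 1)
  interval_cases p <;> simp only [o1, o2] at ho <;> norm_num at ho
  · exfalso
    rcases ho with ho | ho
    · rw [← ho] at ht; simp at ht
    · split_ifs at ho
      · simp at ho
      · rw [← ho] at hf; simp at hf
  · left; rw [ho]; rw [ho] at hF; exact hF
  · rcases ho with ho | ho
    · right
      refine ⟨q, ?_, ho.symm, hF⟩
      rcases mem_vs.1 hx with h | h | h
      · simp at h
      · simp at h
      · exact h.2.2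
    · exfalso; rw [← ho] at hk'; simp at hk'
  · exfalso; rw [← ho] at hk; simp at hk
  · exfalso; rw [← ho] at hl; simp at hl

theorem Cyc.pred10 {φ : List Cl} {F : L → L} (h : Cyc φ F) {e : ℕ} (he : e < 3 * φ.length) :
    F (8, e) = (10, e) ∨ (∃ i b, F (5, i) = (10, e) ∧ tgt φ (b, i) 0 = (10, e)) ∨
      (∃ e' < 3 * φ.length, F (11, e') = (10, e) ∧ tgt φ (litAt φ e') (e' + 1) = (10, e)) := by
  obtain ⟨⟨p, q⟩, hx, h2, hF, ho⟩ := h.pred (y := (10, e))
    (mem_vs.2 (Or.inr (Or.inr ⟨by simp, by simp, he⟩))) (by simp)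
  have h12 := lt_twelve hx
  simp only at h2 h12
  have hk := K_type φ (q + 1)
  have hk' := K_type φ (nx q + 1)
  interval_cases p <;> simp only [o1, o2] at ho <;> norm_num at ho
  · right; left
    rcases ho with ho | ho
    · exact ⟨q, true, hF, ho.symm⟩
    · split_ifs at ho
      · simp at ho
      · exact ⟨q, false, hF, ho.symm⟩
  · exfalso; rw [← ho] at hk'; simp at hk'
  · left; rw [ho]; rw [ho] at hF; exact hF
  · exfalso; rw [← ho] at hk; simp at hk
  · right; right
    refine ⟨q, ?_, hF, ho.symm⟩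
    rcases mem_vs.1 hx with h | h | h
    · simp at h
    · simp at h
    · exact h.2.2

theorem mem6 {φ : List Cl} {p e : ℕ} (h1 : 6 ≤ p) (h2 : p < 12) (he : e < 3 * φ.length) :
    ((p, e) : L) ∈ vs φ := mem_vs.2 (Or.inr (Or.inr ⟨h1, h2, he⟩))

theorem Cyc.out11 {φ : List Cl} {F : L → L} (h : Cyc φ F) {e : ℕ} (he : e < 3 * φ.length)
    (h1 : F (8, e) = (10, e)) : F (11, e) = (9, e) := by
  rcases h.pred9 he with h2 | h2
  · rw [h1] at h2; simp at h2
  · exact h2

/-- A gadget is used by its clause if it is not used by its literal. -/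
theorem Cyc.usedP {φ : List Cl} {F : L → L} (h : Cyc φ F) {e : ℕ} (he : e < 3 * φ.length)
    (h1 : F (8, e) = (10, e)) : F (6, e) = (8, e) := by
  rcases h.pred8 he with h2 | h2
  · exact h2
  · exfalso
    have := h.cl (fun x => x = (8, e) ∨ x = (10, e)) ⟨(8, e), mem6 (by norm_num) (by norm_num) he,
      Or.inl rfl⟩ (by
        rintro x _ (rfl | rfl)
        · right; exact h1
        · left; exact h2) (0, 0) (mem_vs.2 (Or.inl ⟨by simp, rfl⟩))
    simp at this

open Classical in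
/-- The assignment. -/
noncomputable def tau (φ : List Cl) (F : L → L) (i : ℕ) : Bool :=
  decide (F (5, i) = tgt φ (true, i) 0)

theorem Cyc.unusedQ {φ : List Cl} {F : L → L} (h : Cyc φ F) : ∀ e < 3 * φ.length,
    tau φ F (litAt φ e).2 ≠ (litAt φ e).1 → F (8, e) = (10, e) := by
  intro e
  induction e using Nat.strong_induction_on with
  | _ e ih =>
    intro he hτ
    rcases h.pred10 he with h1 | ⟨i, b, h1, h2⟩ | ⟨e', he', h1, h2⟩
    · exact h1
    · exfalso
      obtain ⟨_, h3, _, _⟩ := nxt_some.1 (tgt_eq_ten h2)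
      apply hτ
      rw [h3]
      simp only [tau]
      cases b
      · rw [decide_eq_false_iff_not]
        intro hc
        rw [hc] at h1
        obtain ⟨_, h4, _, _⟩ := nxt_some.1 (tgt_eq_ten h1)
        rw [h3] at h4
        simp at h4
      · rw [decide_eq_true_eq, h1, h2]
    · exfalso
      obtain ⟨h3, h4, _, _⟩ := nxt_some.1 (tgt_eq_ten h2)
      have h5 := ih e' (by omega) he' (by rw [← h4]; exact hτ)
      have h6 := h.out11 he' h5
      rw [h1] at h6
      simp at h6

/-- Soundness of the reduction. -/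
theorem Cyc.sat {φ : List Cl} {F : L → L} (h : Cyc φ F) : Sat3V ℕ φ := by
  refine ⟨tau φ F, ?_⟩
  intro c hc
  obtain ⟨j, hj, hjc⟩ := List.getElem_of_mem hc
  obtain ⟨e1, e2, e3⟩ := litAt_eq (φ := φ) (j := j) (c := c) (by
    rw [List.getElem?_eq_getElem hj, hjc])
  by_contra hcon
  push Not at hcon
  obtain ⟨n1, n2, n3⟩ := hcon
  have a1 : F (6, 3 * j) = (8, 3 * j) :=
    h.usedP (by omega) (h.unusedQ _ (by omega) (by rw [e1]; exact n1))
  have a2 : F (6, 3 * j + 1) = (8, 3 * j + 1) :=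
    h.usedP (by omega) (h.unusedQ _ (by omega) (by rw [e2]; exact n2))
  have a3 : F (6, 3 * j + 2) = (8, 3 * j + 2) :=
    h.usedP (by omega) (h.unusedQ _ (by omega) (by rw [e3]; exact n3))
  have b1 : F (7, 3 * j) = (7, 3 * j + 1) := by
    rcases h.pred7 (e := 3 * j + 1) (by omega) with h1 | ⟨e', he', h1, h2⟩
    · rw [a2] at h1; simp at h1
    · have : e' = 3 * j := by unfold nx at h1; omega
      rw [this] at h2; exact h2
  have b2 : F (7, 3 * j + 1) = (7, 3 * j + 2) := by
    rcases h.pred7 (e := 3 * j + 2) (by omega) with h1 | ⟨e', he', h1, h2⟩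
    · rw [a3] at h1; simp at h1
    · have : e' = 3 * j + 1 := by unfold nx at h1; omega
      rw [this] at h2; exact h2
  have b3 : F (7, 3 * j + 2) = (7, 3 * j) := by
    rcases h.pred7 (e := 3 * j) (by omega) with h1 | ⟨e', he', h1, h2⟩
    · rw [a1] at h1; simp at h1
    · have : e' = 3 * j + 2 := by unfold nx at h1; omega
      rw [this] at h2; exact h2
  have := h.cl (fun x => x = (7, 3 * j) ∨ x = (7, 3 * j + 1) ∨ x = (7, 3 * j + 2))
    ⟨(7, 3 * j), mem6 (by norm_num) (by norm_num) (by omega), Or.inl rfl⟩ (by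
      rintro x _ (rfl | rfl | rfl)
      · right; left; exact b1
      · right; right; exact b2
      · left; exact b3) (0, 0) (mem_vs.2 (Or.inl ⟨by simp, rfl⟩))
  simp at this

end Helper240AS
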